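import Pool.Agent.RTN14.Graded

set_option autoImplicit false

namespace Pool.Agent.RTQ14

open Subgroup
open scoped commutatorElement

/-- terms of the lower central series -/
abbrev L (P : Type) [Group P] (k : ℕ) : Subgroup P := (⊤ : Subgroup P).lowerCentralSeries k

theorem L_mono {P : Type} [Group P] {j k : ℕ} (h : j ≤ k) {x : P} (hx : x ∈ L P k) : x ∈ L P j :=
  Subgroup.lowerCentralSeries_antitone _ h hx

theorem mem_L_zero {P : Type} [Group P] (x : P) : x ∈ L P 0 := by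
  rw [L, Subgroup.lowerCentralSeries_zero]; exact mem_top x

theorem conj_L {P : Type} [Group P] {k : ℕ} {x : P} (hx : x ∈ L P k) (g : P) :
    g * x * g⁻¹ ∈ L P k := by
  have : (L P k).Normal := by unfold L; infer_instance
  exact this.conj_mem x hx g

theorem comm_succ {P : Type} [Group P] {k : ℕ} {x : P} (hx : x ∈ L P k) (g : P) :
    ⁅x, g⁆ ∈ L P (k + 1) := by
  rw [L, Subgroup.lowerCentralSeries_succ]
  exact commutator_mem_commutator hx (mem_top g)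

theorem comm_succ' {P : Type} [Group P] {k : ℕ} {x : P} (hx : x ∈ L P k) (g : P) :
    ⁅g, x⁆ ∈ L P (k + 1) := by
  rw [← commutatorElement_inv]; exact inv_mem (comm_succ hx g)

theorem comm_mem_L {P : Type} [Group P] : ∀ (j i : ℕ) {x y : P}, x ∈ L P i → y ∈ L P j →
    ⁅y, x⁆ ∈ L P (i + j + 1) := by
  intro j
  induction j with
  | zero =>
    intro i x y hx _
    exact comm_succ' hx y
  | succ j ih =>
    intro i x y hx hy
    rw [L, Subgroup.lowerCentralSeries_succ] at hy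
    induction hy using Subgroup.closure_induction with
    | mem y hy =>
      obtain ⟨u, hu, g, _, rfl⟩ := hy
      have e : ⁅x, ⁅u, g⁆⁆ = u * ((x * ⁅g, ⁅x⁻¹, u⁻¹⁆⁆⁻¹ * x⁻¹) *
          (g * ⁅u⁻¹, ⁅g⁻¹, x⁆⁆⁻¹ * g⁻¹)) * u⁻¹ := by
        simp only [commutatorElement_def]; group
      rw [← commutatorElement_inv, e]
      apply inv_mem
      apply conj_L
      apply mul_mem
      · apply conj_L
        apply inv_mem
        have h1 : ⁅x⁻¹, u⁻¹⁆ ∈ L P (i + j + 1) := by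
          rw [← commutatorElement_inv]
          exact inv_mem (ih i (inv_mem hx) (inv_mem hu))
        exact comm_succ' h1 g
      · apply conj_L
        apply inv_mem
        have h1 : ⁅g⁻¹, x⁆ ∈ L P (i + 1) := comm_succ' hx _
        have h2 := ih (i + 1) h1 (inv_mem hu)
        have : i + 1 + j + 1 = i + (j + 1) + 1 := by ring
        rwa [this] at h2
    | one => rw [commutatorElement_one_left]; exact one_mem _
    | mul a b _ _ ha hb =>
      have e : ⁅a * b, x⁆ = a * ⁅b, x⁆ * a⁻¹ * ⁅a, x⁆ := by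
        simp only [commutatorElement_def]; group
      rw [e]
      exact mul_mem (conj_L hb a) ha
    | inv a _ ha =>
      have e : ⁅a⁻¹, x⁆ = a⁻¹ * ⁅a, x⁆⁻¹ * a⁻¹⁻¹ := by
        simp only [commutatorElement_def]; group
      rw [e]
      exact conj_L (inv_mem ha) _

/-- iterated commutator `[u, x₁, …, x_k]` -/
def bl {P : Type} [Group P] (u : P) (l : List P) : P := l.foldl (fun a x => ⁅a, x⁆) u

@[simp] theorem bl_nil {P : Type} [Group P] (u : P) : bl u [] = u := rfl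

theorem bl_cons {P : Type} [Group P] (u x : P) (l : List P) : bl u (x :: l) = bl ⁅u, x⁆ l := rfl

theorem bl_mem {P : Type} [Group P] (l : List P) : ∀ {k : ℕ} {u : P}, u ∈ L P k →
    bl u l ∈ L P (k + l.length) := by
  induction l with
  | nil => intro k u hu; exact hu
  | cons x l ih =>
    intro k u hu
    have := ih (comm_succ hu x)
    rw [bl_cons, List.length_cons]
    have e : k + (l.length + 1) = k + 1 + l.length := by ring
    rwa [e]

theorem bl_one {P : Type} [Group P] {n k : ℕ} (h : L P n = ⊥) {u : P} (hu : u ∈ L P k)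
    (l : List P) (hl : n ≤ k + l.length) : bl u l = 1 := by
  have h1 := L_mono hl (bl_mem l hu)
  rw [h, mem_bot] at h1
  exact h1

/-- `bl` is additive in the first variable, modulo deeper terms -/
theorem bl_mul3 {P : Type} [Group P] {n : ℕ} (h : L P n = ⊥) (l : List P) : ∀ {k : ℕ} {u u' c : P},
    u ∈ L P k → u' ∈ L P k → c ∈ L P (k + 1) → n ≤ k + l.length + 1 →
    bl (u * u' * c) l = bl u l * bl u' l := by
  induction l with
  | nil =>
    intro k u u' c _ _ hc hl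
    have : c = 1 := bl_one h hc [] (by simpa using hl)
    rw [this]; simp
  | cons x l ih =>
    intro k u u' c hu hu' hc hl
    rw [bl_cons, bl_cons, bl_cons]
    obtain ⟨r, hr⟩ : ∃ r, r = (⁅u, x⁆ * ⁅u', x⁆)⁻¹ * ⁅u * u' * c, x⁆ := ⟨_, rfl⟩
    have e : ⁅u * u' * c, x⁆ = ⁅u, x⁆ * ⁅u', x⁆ * r := by rw [hr]; group
    rw [e]
    refine ih (comm_succ hu x) (comm_succ hu' x) ?_ (by simp only [List.length_cons] at hl; omega)
    have e2 : r = (⁅u', x⁆⁻¹ * ⁅u, x⁆⁻¹) * ((u * u') * ⁅c, x⁆ * (u * u')⁻¹) *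
        (⁅u', x⁆⁻¹ * ⁅u, x⁆⁻¹)⁻¹ * (⁅u', x⁆⁻¹ * (⁅u, x⁆⁻¹ * ⁅u, ⁅u', x⁆⁆ * ⁅u, x⁆⁻¹⁻¹) * ⁅u', x⁆⁻¹⁻¹ *
          ⁅⁅u', x⁆⁻¹, ⁅u, x⁆⁻¹⁆) := by
      rw [hr]; simp only [commutatorElement_def]; group
    rw [e2]
    apply mul_mem
    · exact conj_L (conj_L (comm_succ hc x) _) _
    · apply mul_mem
      · apply conj_L
        apply conj_L
        exact comm_succ' (comm_succ hu' x) u
      · exact comm_succ (inv_mem (comm_succ hu' x)) _

theorem bl_mul {P : Type} [Group P] {n k : ℕ} (h : L P n = ⊥) {u u' : P} (hu : u ∈ L P k)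
    (hu' : u' ∈ L P k) (l : List P) (hl : n ≤ k + l.length + 1) :
    bl (u * u') l = bl u l * bl u' l := by
  have := bl_mul3 h l hu hu' (one_mem _) hl
  rwa [mul_one] at this

/-- `bl` is a function of `u` modulo deeper terms -/
theorem bl_congr {P : Type} [Group P] {n k : ℕ} (h : L P n = ⊥) {u c : P} (hu : u ∈ L P k)
    (hc : c ∈ L P (k + 1)) (l : List P) (hl : n ≤ k + l.length + 1) :
    bl (u * c) l = bl u l := by
  have := bl_mul3 h l hu (one_mem _) hc hl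
  rw [mul_one] at this
  rw [this, bl_one h (one_mem (L P (k + 1))) l (by omega), mul_one]

theorem bl_inv {P : Type} [Group P] {n k : ℕ} (h : L P n = ⊥) {u : P} (hu : u ∈ L P k)
    (l : List P) (hl : n ≤ k + l.length + 1) : bl u⁻¹ l = (bl u l)⁻¹ := by
  have h1 := bl_mul h hu (inv_mem hu) l hl
  rw [mul_inv_cancel, bl_one h (one_mem (L P (k + 1))) l (by omega)] at h1
  exact (inv_eq_of_mul_eq_one_right h1.symm).symm

theorem bl_right {P : Type} [Group P] {n k j : ℕ} (h : L P n = ⊥) {u x x' : P} (hu : u ∈ L P k)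
    (hx : x ∈ L P j) (hx' : x' ∈ L P j) (l : List P) (hl : n ≤ k + j + l.length + 2) :
    bl ⁅u, x * x'⁆ l = bl ⁅u, x⁆ l * bl ⁅u, x'⁆ l := by
  have e : ⁅u, x * x'⁆ = ⁅u, x⁆ * ⁅u, x'⁆ * (⁅u, x'⁆⁻¹ * ⁅x, ⁅u, x'⁆⁆ * ⁅u, x'⁆⁻¹⁻¹) := by
    simp only [commutatorElement_def]; group
  have h1 : ⁅u, x⁆ ∈ L P (k + j + 1) := by
    have := comm_mem_L k j hx hu
    rwa [add_comm j k] at this
  have h2 : ⁅u, x'⁆ ∈ L P (k + j + 1) := by
    have := comm_mem_L k j hx' hu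
    rwa [add_comm j k] at this
  rw [e]
  exact bl_mul3 h l h1 h2 (conj_L (comm_succ' h2 x) _) (by omega)

/-- Jacobi identity -/
theorem jacobi {P : Type} [Group P] {n i j k : ℕ} (h : L P n = ⊥) {x y z : P} (hx : x ∈ L P i)
    (hy : y ∈ L P j) (hz : z ∈ L P k) (l : List P) (hl : n ≤ i + j + k + l.length + 3) :
    bl ⁅⁅x, y⁆, z⁆ l * bl ⁅⁅y, z⁆, x⁆ l * bl ⁅⁅z, x⁆, y⁆ l = 1 := by
  have key : ∀ {i j k : ℕ} {x y z : P}, x ∈ L P i → y ∈ L P j → z ∈ L P k →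
      ∃ c ∈ L P (i + j + k + 3), ⁅⁅x, y⁆, y * z * y⁻¹⁆ = ⁅⁅x, y⁆, z⁆ * c := by
    intro i j k x y z hx hy hz
    refine ⟨⁅⁅x, y⁆, z⁆⁻¹ * ⁅⁅x, y⁆, y * z * y⁻¹⁆, ?_, by group⟩
    have e : ⁅⁅x, y⁆, z⁆⁻¹ * ⁅⁅x, y⁆, y * z * y⁻¹⁆
        = z * ⁅⁅x, y⁆, ⁅z⁻¹, y⁆⁆ * z⁻¹ := by
      simp only [commutatorElement_def]; group
    rw [e]
    apply conj_L
    have h1 : ⁅x, y⁆ ∈ L P (j + i + 1) := comm_mem_L i j hy hx
    have h2 : ⁅z⁻¹, y⁆ ∈ L P (j + k + 1) := comm_mem_L k j hy (inv_mem hz)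
    have h3 := comm_mem_L (j + i + 1) (j + k + 1) h2 h1
    exact L_mono (by omega) h3
  obtain ⟨c1, hc1, e1⟩ := key hx hy hz
  obtain ⟨c2, hc2, e2⟩ := key hy hz hx
  obtain ⟨c3, hc3, e3⟩ := key hz hx hy
  have hw : ⁅⁅x, y⁆, y * z * y⁻¹⁆ * ⁅⁅y, z⁆, z * x * z⁻¹⁆ * ⁅⁅z, x⁆, x * y * x⁻¹⁆ = 1 := by
    simp only [commutatorElement_def]; group
  have m1 : ∀ {i j k : ℕ} {x y z : P}, x ∈ L P i → y ∈ L P j → z ∈ L P k →
      ⁅⁅x, y⁆, z⁆ ∈ L P (i + j + k + 2) := by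
    intro i j k x y z hx hy hz
    exact L_mono (by omega) (comm_mem_L _ k hz (comm_mem_L i j hy hx))
  have n1 := m1 hx hy hz
  have n2 : ⁅⁅y, z⁆, x⁆ ∈ L P (i + j + k + 2) := L_mono (by omega) (m1 hy hz hx)
  have n3 : ⁅⁅z, x⁆, y⁆ ∈ L P (i + j + k + 2) := L_mono (by omega) (m1 hz hx hy)
  rw [← bl_congr h n1 hc1 l (by omega), ← bl_congr h n2 (L_mono (by omega) hc2) l (by omega),
    ← bl_congr h n3 (L_mono (by omega) hc3) l (by omega), ← e1, ← e2, ← e3]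
  have q1 : ⁅⁅x, y⁆, y * z * y⁻¹⁆ ∈ L P (i + j + k + 2) := by
    rw [e1]; exact mul_mem n1 (L_mono (by omega) hc1)
  have q2 : ⁅⁅y, z⁆, z * x * z⁻¹⁆ ∈ L P (i + j + k + 2) := by
    rw [e2]; exact mul_mem n2 (L_mono (by omega) hc2)
  have q3 : ⁅⁅z, x⁆, x * y * x⁻¹⁆ ∈ L P (i + j + k + 2) := by
    rw [e3]; exact mul_mem n3 (L_mono (by omega) hc3)
  rw [← bl_mul h q1 q2 l (by omega), ← bl_mul h (mul_mem q1 q2) q3 l (by omega), hw]
  exact bl_one h (one_mem (L P n)) l (by omega)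

theorem bl_skew {P : Type} [Group P] {n i j : ℕ} (h : L P n = ⊥) {x y : P} (hx : x ∈ L P i)
    (hy : y ∈ L P j) (l : List P) (hl : n ≤ i + j + l.length + 2) :
    bl ⁅y, x⁆ l = (bl ⁅x, y⁆ l)⁻¹ := by
  rw [← commutatorElement_inv x y]
  refine bl_inv h (k := i + j + 1) ?_ l (by omega)
  have := comm_mem_L i j hy hx
  rwa [add_comm j i] at this

end Pool.Agent.RTQ14
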