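import Pool.Agent.RTQ14.Val

set_option autoImplicit false

namespace Pool.Agent.RTQ14

open Subgroup
open scoped commutatorElement

/-- the symmetrised iterated commutator of weight four -/
def Sw {P : Type} [Group P] (b x y z : P) : P :=
  bl b [x, y, z] * bl b [x, z, y] * bl b [y, x, z] * bl b [z, x, y] * bl b [y, z, x]
    * bl b [z, y, x]

section

variable {P : Type} [Group P]

theorem m0 (x : P) : x ∈ L P 0 := mem_L_zero x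
theorem m1 (x y : P) : ⁅x, y⁆ ∈ L P 1 := comm_succ (m0 x) y
theorem m2 (x y z : P) : ⁅⁅x, y⁆, z⁆ ∈ L P 2 := comm_succ (m1 x y) z
theorem m3 (x y z t : P) : ⁅⁅⁅x, y⁆, z⁆, t⁆ ∈ L P 3 := comm_succ (m2 x y z) t

theorem nil4_of_S (hTF : RTN14.TF P) (h : L P 5 = ⊥)
    (hS : ∀ b c d a e : P, Sw b ⁅c, d⁆ a e = 1) (x1 x2 x3 x4 x5 : P) :
    bl x1 [x2, x3, x4, x5] = 1 := by
  have key := five (tf_ZA hTF) (fun x1 x2 x3 x4 x5 : P => V x1 [x2, x3, x4, x5]) ?_ ?_ ?_ ?_ ?_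
    x1 x2 x3 x4 x5
  · exact eq_one_of_val (bl_center h (m0 x1) _ (by simp)) key
  · intro a x y z t
    simp only [V_cons]
    rw [← V_cons, ← V_cons, ← V_cons, ← V_cons, ← V_cons, ← V_cons]
    exact V_skew h (m0 a) (m0 x) [y, z, t] (by simp)
  · intro a x y z t
    show V ⁅⁅x, y⁆, a⁆ [z, t] = - V ⁅⁅a, x⁆, y⁆ [z, t] + V ⁅⁅a, y⁆, x⁆ [z, t]
    rw [V_skew h (m0 a) (m1 x y) [z, t] (by simp), V_lie h (m0 a) (m0 x) (m0 y) [z, t] (by simp)]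
    abel
  · intro a x y z t
    show V ⁅⁅⁅x, y⁆, z⁆, a⁆ [t] = - V ⁅⁅⁅a, x⁆, y⁆, z⁆ [t] + V ⁅⁅⁅a, y⁆, x⁆, z⁆ [t]
      + V ⁅⁅⁅a, z⁆, x⁆, y⁆ [t] - V ⁅⁅⁅a, z⁆, y⁆, x⁆ [t]
    rw [V_skew h (m0 a) (m2 x y z) [t] (by simp), V_lie h (m0 a) (m1 x y) (m0 z) [t] (by simp),
      V_lie h (m1 a z) (m0 x) (m0 y) [t] (by simp), ← V_cons ⁅a, ⁅x, y⁆⁆ z [t],
      V_lie h (m0 a) (m0 x) (m0 y) [z, t] (by simp)]
    simp only [V_cons]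
    abel
  · intro a x y z t
    show V ⁅⁅⁅⁅x, y⁆, z⁆, t⁆, a⁆ [] = - V ⁅⁅⁅⁅a, x⁆, y⁆, z⁆, t⁆ [] + V ⁅⁅⁅⁅a, y⁆, x⁆, z⁆, t⁆ []
      + V ⁅⁅⁅⁅a, z⁆, x⁆, y⁆, t⁆ [] - V ⁅⁅⁅⁅a, z⁆, y⁆, x⁆, t⁆ [] + V ⁅⁅⁅⁅a, t⁆, x⁆, y⁆, z⁆ []
      - V ⁅⁅⁅⁅a, t⁆, y⁆, x⁆, z⁆ [] - V ⁅⁅⁅⁅a, t⁆, z⁆, x⁆, y⁆ [] + V ⁅⁅⁅⁅a, t⁆, z⁆, y⁆, x⁆ []
    rw [V_skew h (m0 a) (m3 x y z t) [] (by simp), V_lie h (m0 a) (m2 x y z) (m0 t) [] (by simp),
      V_lie h (m1 a t) (m1 x y) (m0 z) [] (by simp), V_lie h (m2 a t z) (m0 x) (m0 y) [] (by simp),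
      ← V_cons ⁅a, ⁅⁅x, y⁆, z⁆⁆ t [], V_lie h (m0 a) (m1 x y) (m0 z) [t] (by simp),
      V_lie h (m1 a z) (m0 x) (m0 y) [t] (by simp), ← V_cons ⁅a, ⁅x, y⁆⁆ z [t],
      V_lie h (m0 a) (m0 x) (m0 y) [z, t] (by simp), ← V_cons ⁅⁅a, t⁆, ⁅x, y⁆⁆ z [],
      V_lie h (m1 a t) (m0 x) (m0 y) [z] (by simp)]
    simp only [V_cons]
    abel
  · intro b c d a e
    have q1 : V b [⁅c, d⁆, a, e] = V b [c, d, a, e] - V b [d, c, a, e] :=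
      V_lie h (m0 b) (m0 c) (m0 d) [a, e] (by simp)
    have q2 : V b [⁅c, d⁆, e, a] = V b [c, d, e, a] - V b [d, c, e, a] :=
      V_lie h (m0 b) (m0 c) (m0 d) [e, a] (by simp)
    have q3 : V b [a, ⁅c, d⁆, e] = V b [a, c, d, e] - V b [a, d, c, e] :=
      V_lie h (m1 b a) (m0 c) (m0 d) [e] (by simp)
    have q4 : V b [e, ⁅c, d⁆, a] = V b [e, c, d, a] - V b [e, d, c, a] :=
      V_lie h (m1 b e) (m0 c) (m0 d) [a] (by simp)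
    have q5 : V b [a, e, ⁅c, d⁆] = V b [a, e, c, d] - V b [a, e, d, c] :=
      V_lie h (m2 b a e) (m0 c) (m0 d) [] (by simp)
    have q6 : V b [e, a, ⁅c, d⁆] = V b [e, a, c, d] - V b [e, a, d, c] :=
      V_lie h (m2 b e a) (m0 c) (m0 d) [] (by simp)
    have hd : ⁅c, d⁆ ∈ L P 1 := m1 c d
    have cen : ∀ z ∈ L P 4, z ∈ center P := fun z hz => RTN14.lcs_le_center h hz
    have t1 : bl b [⁅c, d⁆, a, e] ∈ center P := cen _ (comm_succ (comm_succ (comm_succ' hd b) a) e)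
    have t2 : bl b [⁅c, d⁆, e, a] ∈ center P := cen _ (comm_succ (comm_succ (comm_succ' hd b) e) a)
    have t3 : bl b [a, ⁅c, d⁆, e] ∈ center P :=
      cen _ (comm_succ (comm_mem_L 1 1 hd (m1 b a)) e)
    have t4 : bl b [e, ⁅c, d⁆, a] ∈ center P :=
      cen _ (comm_succ (comm_mem_L 1 1 hd (m1 b e)) a)
    have t5 : bl b [a, e, ⁅c, d⁆] ∈ center P := cen _ (comm_mem_L 2 1 hd (m2 b a e))
    have t6 : bl b [e, a, ⁅c, d⁆] ∈ center P := cen _ (comm_mem_L 2 1 hd (m2 b e a))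
    have s := congrArg val (hS b c d a e)
    unfold Sw at s
    rw [val_mul (mul_mem (mul_mem (mul_mem (mul_mem t1 t2) t3) t4) t5) t6,
      val_mul (mul_mem (mul_mem (mul_mem t1 t2) t3) t4) t5,
      val_mul (mul_mem (mul_mem t1 t2) t3) t4, val_mul (mul_mem t1 t2) t3, val_mul t1 t2,
      val_one] at s
    change V b [⁅c, d⁆, a, e] + V b [⁅c, d⁆, e, a] + V b [a, ⁅c, d⁆, e] + V b [e, ⁅c, d⁆, a]
      + V b [a, e, ⁅c, d⁆] + V b [e, a, ⁅c, d⁆] = 0 at s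
    rw [q1, q2, q3, q4, q5, q6] at s
    rw [← s]
    show _ = _
    abel

end

end Pool.Agent.RTQ14
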