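import Mathlib
set_option autoImplicit false
namespace Pool.Agent.RTQ14

structure Lie4 {X A : Type} [AddCommGroup A] (B : (Fin 4 → X) → A) : Prop where
  h2 : ∀ a x y z, B ![x, a, y, z] = - B ![a, x, y, z]
  h3 : ∀ a x y z, B ![x, y, a, z] = - B ![a, x, y, z] + B ![a, y, x, z]
  h4 : ∀ a x y z, B ![x, y, z, a] = - B ![a, x, y, z] + B ![a, y, x, z] + B ![a, z, x, y] - B ![a, z, y, x]

def Sym4 {X A : Type} [AddCommGroup A] (B : (Fin 4 → X) → A) : Prop := ∀ b x y z,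
  B ![b, x, y, z] + B ![b, x, z, y] + B ![b, y, x, z] + B ![b, z, x, y] + B ![b, y, z, x] + B ![b, z, y, x] = 0

def Met4 {X A : Type} [AddCommGroup A] (B : (Fin 4 → X) → A) : Prop := ∀ a b c d, B ![a, b, c, d] = B ![a, b, d, c]

def TFA (A : Type) [AddCommGroup A] : Prop := ∀ a : A, ∀ n : ℕ, 0 < n → n • a = 0 → a = 0

theorem TFA.int {A : Type} [AddCommGroup A] (h : TFA A) {c : ℤ} (hc : c ≠ 0) {a : A}
    (ha : c • a = 0) : a = 0 := by
  apply h a c.natAbs (Int.natAbs_pos.mpr hc)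
  rcases Int.natAbs_eq c with h1 | h1
  · rw [h1] at ha
    rw [natCast_zsmul] at ha
    exact ha
  · rw [h1] at ha
    rw [neg_smul, natCast_zsmul, neg_eq_zero] at ha
    exact ha

theorem six (j k l : Fin 4) (hj : j ≠ 0) (hk : k ≠ 0) (hl : l ≠ 0) (hjk : j ≠ k) (hjl : j ≠ l)
    (hkl : k ≠ l) :
    ∃ a1 a2 a3 a4 a5 a6 : ℤ, ∀ (X A : Type) [AddCommGroup A] (B : (Fin 4 → X) → A)
      (p : Fin 4 → X), B ![p 0, p j, p k, p l] =
        a1 • B ![p 0, p 1, p 2, p 3] + a2 • B ![p 0, p 1, p 3, p 2]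
        + a3 • B ![p 0, p 2, p 1, p 3] + a4 • B ![p 0, p 2, p 3, p 1]
        + a5 • B ![p 0, p 3, p 1, p 2] + a6 • B ![p 0, p 3, p 2, p 1] := by
  have key' : ∀ j k l : Fin 4, (j ≠ 0 ∧ k ≠ 0 ∧ l ≠ 0 ∧ j ≠ k ∧ j ≠ l ∧ k ≠ l) →
      (j = 1 ∧ k = 2 ∧ l = 3) ∨ (j = 1 ∧ k = 3 ∧ l = 2) ∨ (j = 2 ∧ k = 1 ∧ l = 3) ∨
      (j = 2 ∧ k = 3 ∧ l = 1) ∨ (j = 3 ∧ k = 1 ∧ l = 2) ∨ (j = 3 ∧ k = 2 ∧ l = 1) := by
    decide
  have key := key' j k l ⟨hj, hk, hl, hjk, hjl, hkl⟩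
  rcases key with ⟨rfl, rfl, rfl⟩ | ⟨rfl, rfl, rfl⟩ | ⟨rfl, rfl, rfl⟩ | ⟨rfl, rfl, rfl⟩ |
    ⟨rfl, rfl, rfl⟩ | ⟨rfl, rfl, rfl⟩
  · exact ⟨1, 0, 0, 0, 0, 0, by intros; simp only [one_smul, zero_smul, add_zero, zero_add]⟩
  · exact ⟨0, 1, 0, 0, 0, 0, by intros; simp only [one_smul, zero_smul, add_zero, zero_add]⟩
  · exact ⟨0, 0, 1, 0, 0, 0, by intros; simp only [one_smul, zero_smul, add_zero, zero_add]⟩
  · exact ⟨0, 0, 0, 1, 0, 0, by intros; simp only [one_smul, zero_smul, add_zero, zero_add]⟩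
  · exact ⟨0, 0, 0, 0, 1, 0, by intros; simp only [one_smul, zero_smul, add_zero, zero_add]⟩
  · exact ⟨0, 0, 0, 0, 0, 1, by intros; simp only [one_smul, zero_smul, add_zero, zero_add]⟩

theorem red4 (σ : Equiv.Perm (Fin 4)) :
    ∃ a1 a2 a3 a4 a5 a6 : ℤ, ∀ (X A : Type) [AddCommGroup A] (B : (Fin 4 → X) → A), Lie4 B →
      ∀ p : Fin 4 → X, B (p ∘ σ) =
        a1 • B ![p 0, p 1, p 2, p 3] + a2 • B ![p 0, p 1, p 3, p 2]
        + a3 • B ![p 0, p 2, p 1, p 3] + a4 • B ![p 0, p 2, p 3, p 1]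
        + a5 • B ![p 0, p 3, p 1, p 2] + a6 • B ![p 0, p 3, p 2, p 1] := by
  have e : ∀ (X : Type) (p : Fin 4 → X), p ∘ σ = ![p (σ 0), p (σ 1), p (σ 2), p (σ 3)] := by
    intro X p
    funext i
    fin_cases i <;> rfl
  have n01 : σ 0 ≠ σ 1 := σ.injective.ne (by decide)
  have n02 : σ 0 ≠ σ 2 := σ.injective.ne (by decide)
  have n03 : σ 0 ≠ σ 3 := σ.injective.ne (by decide)
  have n12 : σ 1 ≠ σ 2 := σ.injective.ne (by decide)
  have n13 : σ 1 ≠ σ 3 := σ.injective.ne (by decide)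
  have n23 : σ 2 ≠ σ 3 := σ.injective.ne (by decide)
  have hpos : σ 0 = 0 ∨ σ 1 = 0 ∨ σ 2 = 0 ∨ σ 3 = 0 := by
    obtain ⟨t, ht⟩ := σ.surjective 0
    fin_cases t
    · exact Or.inl ht
    · exact Or.inr (Or.inl ht)
    · exact Or.inr (Or.inr (Or.inl ht))
    · exact Or.inr (Or.inr (Or.inr ht))
  rcases hpos with h | h | h | h
  · obtain ⟨a1, a2, a3, a4, a5, a6, ha⟩ := six (σ 1) (σ 2) (σ 3) (fun h' => n01 (h.trans h'.symm))
      (fun h' => n02 (h.trans h'.symm)) (fun h' => n03 (h.trans h'.symm)) n12 n13 n23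
    refine ⟨a1, a2, a3, a4, a5, a6, ?_⟩
    intro X A _ B hB p
    rw [e, h, ha X A B p]
  · obtain ⟨a1, a2, a3, a4, a5, a6, ha⟩ := six (σ 0) (σ 2) (σ 3) (fun h' => n01 (h'.trans h.symm))
      (fun h' => n12 (h.trans h'.symm)) (fun h' => n13 (h.trans h'.symm)) n02 n03 n23
    refine ⟨-a1, -a2, -a3, -a4, -a5, -a6, ?_⟩
    intro X A _ B hB p
    rw [e, h, hB.h2, ha X A B p]
    module
  · have m0 : σ 0 ≠ 0 := fun h' => n02 (h'.trans h.symm)
    have m1 : σ 1 ≠ 0 := fun h' => n12 (h'.trans h.symm)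
    have m3 : σ 3 ≠ 0 := fun h' => n23 (h.trans h'.symm)
    obtain ⟨a1, a2, a3, a4, a5, a6, ha⟩ := six (σ 0) (σ 1) (σ 3) m0 m1 m3 n01 n03 n13
    obtain ⟨b1, b2, b3, b4, b5, b6, hb⟩ := six (σ 1) (σ 0) (σ 3) m1 m0 m3 n01.symm n13 n03
    refine ⟨-a1 + b1, -a2 + b2, -a3 + b3, -a4 + b4, -a5 + b5, -a6 + b6, ?_⟩
    intro X A _ B hB p
    rw [e, h, hB.h3, ha X A B p, hb X A B p]
    module
  · have m0 : σ 0 ≠ 0 := fun h' => n03 (h'.trans h.symm)
    have m1 : σ 1 ≠ 0 := fun h' => n13 (h'.trans h.symm)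
    have m2 : σ 2 ≠ 0 := fun h' => n23 (h'.trans h.symm)
    obtain ⟨a1, a2, a3, a4, a5, a6, ha⟩ := six (σ 0) (σ 1) (σ 2) m0 m1 m2 n01 n02 n12
    obtain ⟨b1, b2, b3, b4, b5, b6, hb⟩ := six (σ 1) (σ 0) (σ 2) m1 m0 m2 n01.symm n12 n02
    obtain ⟨c1, c2, c3, c4, c5, c6, hc⟩ := six (σ 2) (σ 0) (σ 1) m2 m0 m1 n02.symm n12.symm n01
    obtain ⟨d1, d2, d3, d4, d5, d6, hd⟩ := six (σ 2) (σ 1) (σ 0) m2 m1 m0 n12.symm n02.symm n01.symm
    refine ⟨-a1 + b1 + c1 - d1, -a2 + b2 + c2 - d2, -a3 + b3 + c3 - d3, -a4 + b4 + c4 - d4,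
      -a5 + b5 + c5 - d5, -a6 + b6 + c6 - d6, ?_⟩
    intro X A _ B hB p
    rw [e, h, hB.h4, ha X A B p, hb X A B p, hc X A B p, hd X A B p]
    module

theorem sum4 (E : Equiv.Perm (Fin 4) → ℤ) :
    ∃ a1 a2 a3 a4 a5 a6 : ℤ, ∀ (X A : Type) [AddCommGroup A] (B : (Fin 4 → X) → A), Lie4 B →
      ∀ p : Fin 4 → X, ∑ σ, E σ • B (p ∘ σ) =
        a1 • B ![p 0, p 1, p 2, p 3] + a2 • B ![p 0, p 1, p 3, p 2]
        + a3 • B ![p 0, p 2, p 1, p 3] + a4 • B ![p 0, p 2, p 3, p 1]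
        + a5 • B ![p 0, p 3, p 1, p 2] + a6 • B ![p 0, p 3, p 2, p 1] := by
  choose a1 a2 a3 a4 a5 a6 h using red4
  refine ⟨∑ σ, E σ * a1 σ, ∑ σ, E σ * a2 σ, ∑ σ, E σ * a3 σ, ∑ σ, E σ * a4 σ, ∑ σ, E σ * a5 σ,
    ∑ σ, E σ * a6 σ, ?_⟩
  intro X A _ B hB p
  simp only [h _ X A B hB p, smul_add, Finset.sum_add_distrib, Finset.sum_smul, mul_smul]

theorem four_aux (a1 a2 a3 a4 a5 a6 : ℤ) (X A : Type) [AddCommGroup A] (B : (Fin 4 → X) → A)
    (hA : TFA A) (hB : Lie4 B)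
    (F : ∀ x y z w : X, a1 • B ![x, y, z, w] + a2 • B ![x, y, w, z] + a3 • B ![x, z, y, w]
      + a4 • B ![x, z, w, y] + a5 • B ![x, w, y, z] + a6 • B ![x, w, z, y] = 0) :
    (a5 + a6 ≠ 0 → Sym4 B) ∧ (a1 + a2 ≠ 0 → Sym4 B) ∧ (a3 + a4 ≠ 0 → Sym4 B) := by
  refine ⟨?_, ?_, ?_⟩
  · intro h b x y z
    apply hA.int h
    have f1 := F x y z b
    have f2 := F y x z b
    have f3 := F x z y b
    have f4 := F z x y b
    have f5 := F y z x b
    have f6 := F z y x b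
    simp only [hB.h2 x y z b, hB.h2 x z y b, hB.h2 y z x b, hB.h2 x y b z, hB.h2 x z b y,
      hB.h2 y z b x, hB.h2 b x y z, hB.h2 b x z y, hB.h2 b y x z, hB.h2 b y z x, hB.h2 b z x y,
      hB.h2 b z y x] at f1 f2 f3 f4 f5 f6
    linear_combination (norm := module) -f1 - f2 - f3 - f4 - f5 - f6
  · intro h b x y z
    apply hA.int h
    have f1 := F x b y z
    have f2 := F x b z y
    have f3 := F y b x z
    have f4 := F y b z x
    have f5 := F z b x y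
    have f6 := F z b y x
    simp only [hB.h2 x y z b, hB.h2 x z y b, hB.h2 y z x b, hB.h2 x y b z, hB.h2 x z b y,
      hB.h2 y z b x, hB.h2 b x y z, hB.h2 b x z y, hB.h2 b y x z, hB.h2 b y z x, hB.h2 b z x y,
      hB.h2 b z y x] at f1 f2 f3 f4 f5 f6
    linear_combination (norm := module) -f1 - f2 - f3 - f4 - f5 - f6
  · intro h b x y z
    apply hA.int h
    have f1 := F x y b z
    have f2 := F x z b y
    have f3 := F y x b z
    have f4 := F y z b x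
    have f5 := F z x b y
    have f6 := F z y b x
    simp only [hB.h2 x y z b, hB.h2 x z y b, hB.h2 y z x b, hB.h2 x y b z, hB.h2 x z b y,
      hB.h2 y z b x, hB.h2 b x y z, hB.h2 b x z y, hB.h2 b y x z, hB.h2 b y z x, hB.h2 b z x y,
      hB.h2 b z y x] at f1 f2 f3 f4 f5 f6
    linear_combination (norm := module) -f1 - f2 - f3 - f4 - f5 - f6

/-- antisymmetry of `m(ab|cd) = B[abcd] - B[abdc]` -/
theorem m_swap {X A : Type} [AddCommGroup A] {B : (Fin 4 → X) → A} (hB : Lie4 B) (a b c d : X) :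
    B ![c, d, a, b] - B ![c, d, b, a] = - (B ![a, b, c, d] - B ![a, b, d, c]) := by
  rw [hB.h3 a c d b, hB.h4 a c d b]
  abel

theorem met_aux (a1 a3 a5 : ℤ) (X A : Type) [AddCommGroup A] (B : (Fin 4 → X) → A)
    (hA : TFA A) (hB : Lie4 B) (hne : a1 ≠ 0 ∨ a3 ≠ 0 ∨ a5 ≠ 0)
    (F : ∀ x y z w : X, a1 • (B ![x, y, z, w] - B ![x, y, w, z])
      + a3 • (B ![x, z, y, w] - B ![x, z, w, y])
      + a5 • (B ![x, w, y, z] - B ![x, w, z, y]) = 0) : Met4 B := by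
  intro x y z w
  have h2 : (2 : ℤ) ≠ 0 := by norm_num
  rw [← sub_eq_zero]
  have s := m_swap hB
  rcases hne with h | h | h
  · apply hA.int (mul_ne_zero h2 h)
    have f1 := F x y z w
    have f2 := F y x w z
    have e1 := s x z y w
    have e2 := s x w y z
    have e3 := hB.h2 x y w z
    have e4 := hB.h2 x y z w
    rw [e3, e4, e1, e2] at f2
    linear_combination (norm := module) f1 + f2
  · apply hA.int (mul_ne_zero h2 h)
    have f1 := F x z y w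
    have f2 := F y w x z
    have e1 := s x z y w
    have e2 := s x w y z
    have e3 := hB.h2 x y w z
    have e4 := hB.h2 x y z w
    linear_combination (norm := module) f1 + f2 - a1 • e1 - a3 • (e3 - e4) + a5 • e2
  · apply hA.int (mul_ne_zero h2 h)
    have f1 := F x z w y
    have f2 := F y w z x
    have e1 := s x z y w
    have e2 := s x w y z
    have e3 := hB.h2 x y w z
    have e4 := hB.h2 x y z w
    linear_combination (norm := module) f1 + f2 + a1 • e1 + a3 • e2 - a5 • (e3 - e4)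

theorem four (E : Equiv.Perm (Fin 4) → ℤ) :
    (∀ (X A : Type) [AddCommGroup A] (B : (Fin 4 → X) → A), Lie4 B → ∀ p, ∑ σ, E σ • B (p ∘ σ) = 0) ∨
    (∀ (X A : Type) [AddCommGroup A] (B : (Fin 4 → X) → A), TFA A → Lie4 B → (∀ p, ∑ σ, E σ • B (p ∘ σ) = 0) → Sym4 B) ∨
    (∀ (X A : Type) [AddCommGroup A] (B : (Fin 4 → X) → A), TFA A → Lie4 B → (∀ p, ∑ σ, E σ • B (p ∘ σ) = 0) → Met4 B) := by
  obtain ⟨a1, a2, a3, a4, a5, a6, h⟩ := sum4 E
  have hF : ∀ (X A : Type) [AddCommGroup A] (B : (Fin 4 → X) → A), Lie4 B →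
      (∀ p, ∑ σ, E σ • B (p ∘ σ) = 0) → ∀ x y z w : X, a1 • B ![x, y, z, w] + a2 • B ![x, y, w, z]
      + a3 • B ![x, z, y, w] + a4 • B ![x, z, w, y] + a5 • B ![x, w, y, z]
      + a6 • B ![x, w, z, y] = 0 := by
    intro X A _ B hB hf x y z w
    have := hf ![x, y, z, w]
    rw [h X A B hB] at this
    exact this
  by_cases h1 : a1 + a2 = 0
  · by_cases h3 : a3 + a4 = 0
    · by_cases h5 : a5 + a6 = 0
      · obtain rfl : a2 = -a1 := by omega
        obtain rfl : a4 = -a3 := by omega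
        obtain rfl : a6 = -a5 := by omega
        by_cases hz : a1 = 0 ∧ a3 = 0 ∧ a5 = 0
        · left
          intro X A _ B hB p
          rw [h X A B hB, hz.1, hz.2.1, hz.2.2]
          module
        · right; right
          intro X A _ B hA hB hf
          refine met_aux a1 a3 a5 X A B hA hB (by tauto) ?_
          intro x y z w
          linear_combination (norm := module) hF X A B hB hf x y z w
      · right; left
        intro X A _ B hA hB hf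
        exact (four_aux a1 a2 a3 a4 a5 a6 X A B hA hB (hF X A B hB hf)).1 h5
    · right; left
      intro X A _ B hA hB hf
      exact (four_aux a1 a2 a3 a4 a5 a6 X A B hA hB (hF X A B hB hf)).2.2 h3
  · right; left
    intro X A _ B hA hB hf
    exact (four_aux a1 a2 a3 a4 a5 a6 X A B hA hB (hF X A B hB hf)).2.1 h1

structure Lie3 {X A : Type} [AddCommGroup A] (B : (Fin 3 → X) → A) : Prop where
  h2 : ∀ a x y, B ![x, a, y] = - B ![a, x, y]
  h3 : ∀ a x y, B ![x, y, a] = - B ![a, x, y] + B ![a, y, x]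

theorem red3 (σ : Equiv.Perm (Fin 3)) :
    ∃ a1 a2 : ℤ, ∀ (X A : Type) [AddCommGroup A] (B : (Fin 3 → X) → A), Lie3 B →
      ∀ p : Fin 3 → X, B (p ∘ σ) = a1 • B ![p 0, p 1, p 2] + a2 • B ![p 0, p 2, p 1] := by
  have e : ∀ (X : Type) (p : Fin 3 → X), p ∘ σ = ![p (σ 0), p (σ 1), p (σ 2)] := by
    intro X p
    funext i
    fin_cases i <;> rfl
  have n01 : σ 0 ≠ σ 1 := σ.injective.ne (by decide)
  have n02 : σ 0 ≠ σ 2 := σ.injective.ne (by decide)
  have n12 : σ 1 ≠ σ 2 := σ.injective.ne (by decide)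
  have key : (σ 0 = 0 ∧ σ 1 = 1 ∧ σ 2 = 2) ∨ (σ 0 = 0 ∧ σ 1 = 2 ∧ σ 2 = 1) ∨
      (σ 0 = 1 ∧ σ 1 = 0 ∧ σ 2 = 2) ∨ (σ 0 = 1 ∧ σ 1 = 2 ∧ σ 2 = 0) ∨
      (σ 0 = 2 ∧ σ 1 = 0 ∧ σ 2 = 1) ∨ (σ 0 = 2 ∧ σ 1 = 1 ∧ σ 2 = 0) := by
    have := (σ 0).isLt
    have := (σ 1).isLt
    have := (σ 2).isLt
    generalize σ 0 = i at *
    generalize σ 1 = j at *
    generalize σ 2 = k at *
    simp only [Fin.ext_iff, ne_eq] at *
    simp only [Fin.val_zero, Fin.val_one, Fin.val_two] at *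
    omega
  rcases key with ⟨h0, h1, h2⟩ | ⟨h0, h1, h2⟩ | ⟨h0, h1, h2⟩ | ⟨h0, h1, h2⟩ | ⟨h0, h1, h2⟩ |
    ⟨h0, h1, h2⟩
  · refine ⟨1, 0, ?_⟩
    intro X A _ B hB p
    rw [e, h0, h1, h2]
    module
  · refine ⟨0, 1, ?_⟩
    intro X A _ B hB p
    rw [e, h0, h1, h2]
    module
  · refine ⟨-1, 0, ?_⟩
    intro X A _ B hB p
    rw [e, h0, h1, h2, hB.h2 (p 0) (p 1) (p 2)]
    module
  · refine ⟨-1, 1, ?_⟩
    intro X A _ B hB p
    rw [e, h0, h1, h2, hB.h3 (p 0) (p 1) (p 2)]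
    module
  · refine ⟨0, -1, ?_⟩
    intro X A _ B hB p
    rw [e, h0, h1, h2, hB.h2 (p 0) (p 2) (p 1)]
    module
  · refine ⟨1, -1, ?_⟩
    intro X A _ B hB p
    rw [e, h0, h1, h2, hB.h3 (p 0) (p 2) (p 1)]
    module

theorem three (E : Equiv.Perm (Fin 3) → ℤ) :
    (∀ (X A : Type) [AddCommGroup A] (B : (Fin 3 → X) → A), Lie3 B → ∀ p, ∑ σ, E σ • B (p ∘ σ) = 0) ∨
    (∀ (X A : Type) [AddCommGroup A] (B : (Fin 3 → X) → A), TFA A → Lie3 B →
      (∀ p, ∑ σ, E σ • B (p ∘ σ) = 0) → ∀ p, B p = 0) := by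
  choose a1 a2 h' using red3
  obtain ⟨a, b, h⟩ : ∃ a b : ℤ, ∀ (X A : Type) [AddCommGroup A] (B : (Fin 3 → X) → A), Lie3 B →
      ∀ p : Fin 3 → X, ∑ σ, E σ • B (p ∘ σ) = a • B ![p 0, p 1, p 2] + b • B ![p 0, p 2, p 1] := by
    refine ⟨∑ σ, E σ * a1 σ, ∑ σ, E σ * a2 σ, ?_⟩
    intro X A _ B hB p
    simp only [h' _ X A B hB p, smul_add, Finset.sum_add_distrib, Finset.sum_smul, mul_smul]
  by_cases hz : a = 0 ∧ b = 0
  · left
    intro X A _ B hB p
    rw [h X A B hB, hz.1, hz.2]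
    module
  · right
    intro X A _ B hA hB hf
    have F : ∀ x y z : X, a • B ![x, y, z] + b • B ![x, z, y] = 0 := by
      intro x y z
      have := hf ![x, y, z]
      rw [h X A B hB] at this
      exact this
    suffices H : ∀ x y z : X, B ![x, y, z] = 0 by
      intro p
      have e : p = ![p 0, p 1, p 2] := by
        funext i
        fin_cases i <;> rfl
      rw [e]
      exact H _ _ _
    by_cases hab : a ^ 2 - b ^ 2 = 0
    · have hab' : (a - b) * (a + b) = 0 := by linear_combination hab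
      rcases mul_eq_zero.mp hab' with h1 | h1
      · -- a = b
        obtain rfl : a = b := by omega
        have ha : a ≠ 0 := fun h0 => hz ⟨h0, h0⟩
        have S : ∀ x y z : X, B ![x, y, z] + B ![x, z, y] = 0 := by
          intro x y z
          apply hA.int ha
          linear_combination (norm := module) F x y z
        intro x y z
        apply hA.int (show (3 : ℤ) ≠ 0 by norm_num)
        have s1 := hB.h3 z x y
        have s2 := S z x y
        have s3 := hB.h2 z x y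
        have s4 := S x y z
        linear_combination (norm := module) s1 + s2 + 2 • s4 - 2 • s3
      · -- a = -b
        obtain rfl : b = -a := by omega
        have ha : a ≠ 0 := fun h0 => hz ⟨h0, by omega⟩
        have S : ∀ x y z : X, B ![x, y, z] - B ![x, z, y] = 0 := by
          intro x y z
          apply hA.int ha
          linear_combination (norm := module) F x y z
        intro x y z
        have s1 := hB.h3 z x y
        have s2 := S z x y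
        linear_combination (norm := module) s1 - s2
    · intro x y z
      apply hA.int hab
      have f1 := F x y z
      have f2 := F x z y
      linear_combination (norm := module) a • f1 - b • f2

theorem red2 (σ : Equiv.Perm (Fin 2)) :
    ∃ a : ℤ, ∀ (X A : Type) [AddCommGroup A] (B : (Fin 2 → X) → A),
      (∀ a x, B ![x, a] = - B ![a, x]) → ∀ p : Fin 2 → X, B (p ∘ σ) = a • B ![p 0, p 1] := by
  have e : ∀ (X : Type) (p : Fin 2 → X), p ∘ σ = ![p (σ 0), p (σ 1)] := by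
    intro X p
    funext i
    fin_cases i <;> rfl
  have n01 : σ 0 ≠ σ 1 := σ.injective.ne (by decide)
  have key : (σ 0 = 0 ∧ σ 1 = 1) ∨ (σ 0 = 1 ∧ σ 1 = 0) := by
    have := (σ 0).isLt
    have := (σ 1).isLt
    generalize σ 0 = i at *
    generalize σ 1 = j at *
    simp only [Fin.ext_iff, ne_eq] at *
    simp only [Fin.val_zero, Fin.val_one] at *
    omega
  rcases key with ⟨h0, h1⟩ | ⟨h0, h1⟩
  · refine ⟨1, ?_⟩
    intro X A _ B hB p
    rw [e, h0, h1]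
    module
  · refine ⟨-1, ?_⟩
    intro X A _ B hB p
    rw [e, h0, h1, hB]
    module

theorem two (E : Equiv.Perm (Fin 2) → ℤ) :
    (∀ (X A : Type) [AddCommGroup A] (B : (Fin 2 → X) → A), (∀ a x, B ![x, a] = - B ![a, x]) → ∀ p, ∑ σ, E σ • B (p ∘ σ) = 0) ∨
    (∀ (X A : Type) [AddCommGroup A] (B : (Fin 2 → X) → A), TFA A → (∀ a x, B ![x, a] = - B ![a, x]) →
      (∀ p, ∑ σ, E σ • B (p ∘ σ) = 0) → ∀ p, B p = 0) := by
  choose a1 h' using red2
  obtain ⟨a, h⟩ : ∃ a : ℤ, ∀ (X A : Type) [AddCommGroup A] (B : (Fin 2 → X) → A),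
      (∀ a x, B ![x, a] = - B ![a, x]) →
      ∀ p : Fin 2 → X, ∑ σ, E σ • B (p ∘ σ) = a • B ![p 0, p 1] := by
    refine ⟨∑ σ, E σ * a1 σ, ?_⟩
    intro X A _ B hB p
    simp only [h' _ X A B hB p, Finset.sum_smul, mul_smul]
  by_cases hz : a = 0
  · left
    intro X A _ B hB p
    rw [h X A B hB, hz, zero_smul]
  · right
    intro X A _ B hA hB hf p
    have := hf p
    rw [h X A B hB] at this
    have e : p = ![p 0, p 1] := by
      funext i
      fin_cases i <;> rfl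
    rw [e]
    exact hA.int hz this

theorem one (E : Equiv.Perm (Fin 1) → ℤ) :
    (∀ (X A : Type) [AddCommGroup A] (B : (Fin 1 → X) → A), ∀ p, ∑ σ, E σ • B (p ∘ σ) = 0) ∨
    (∀ (X A : Type) [AddCommGroup A] (B : (Fin 1 → X) → A), TFA A → (∀ p, ∑ σ, E σ • B (p ∘ σ) = 0) → ∀ p, B p = 0) := by
  have h : ∀ (X A : Type) [AddCommGroup A] (B : (Fin 1 → X) → A) (p : Fin 1 → X),
      ∑ σ : Equiv.Perm (Fin 1), E σ • B (p ∘ σ) = E 1 • B p := by
    intro X A _ B p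
    rw [Fintype.sum_eq_single (1 : Equiv.Perm (Fin 1))]
    · rfl
    · intro σ hσ
      exact absurd (Subsingleton.elim σ 1) hσ
  by_cases hz : E 1 = 0
  · left
    intro X A _ B p
    rw [h X A B p, hz, zero_smul]
  · right
    intro X A _ B hA hf p
    have := hf p
    rw [h X A B p] at this
    exact hA.int hz this

end Pool.Agent.RTQ14
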