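import Mathlib
set_option autoImplicit false
namespace Pool.Agent.RTQ14

open Finset

/-- additivity in the variable `i` turns list products into sums -/
theorem list_add {G A : Type} [Group G] [AddCommGroup A] (f : G → A)
    (hf : ∀ g h : G, f (g * h) = f g + f h) (l : List G) : f l.prod = (l.map f).sum := by
  have h1 : f 1 = 0 := by
    have := hf 1 1
    rw [mul_one] at this
    exact left_eq_add.mp this
  induction l with
  | nil => simpa using h1
  | cons a l ih => simp [hf, ih]

/-- multilinear expansion -/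
theorem expand {G A : Type} [Group G] [AddCommGroup A] (m : ℕ) :
    ∀ (n : ℕ) (B : (Fin n → G) → A)
    (_ : ∀ (p : Fin n → G) (i : Fin n) (g h : G),
      B (Function.update p i (g * h)) = B (Function.update p i g) + B (Function.update p i h))
    (u : Fin n → Fin m → G),
    B (fun s => (List.ofFn (u s)).prod) = ∑ c : Fin n → Fin m, B (fun s => u s (c s)) := by
  intro n
  induction n with
  | zero =>
    intro B hB u
    rw [Fintype.sum_unique]
    congr 1
    exact Subsingleton.elim _ _
  | succ n ih =>
    intro B hB u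
    have e1 : (fun s => (List.ofFn (u s)).prod)
        = (Fin.cons ((List.ofFn (u 0)).prod) (fun s : Fin n => (List.ofFn (u s.succ)).prod)
          : Fin (n + 1) → G) := by
      funext s
      refine Fin.cases ?_ (fun j => ?_) s <;> simp
    rw [e1]
    have e2 : ∀ (x : G) (q : Fin n → G) , (Fin.cons x q : Fin (n + 1) → G)
        = Function.update (Fin.cons 1 q : Fin (n + 1) → G) 0 x := by
      intro x q
      rw [Fin.update_cons_zero]
    have e3 := list_add (fun x => B (Fin.cons x (fun s : Fin n => (List.ofFn (u s.succ)).prod)))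
      (by
        intro g h
        rw [e2 (g * h), e2 g, e2 h]
        exact hB _ _ _ _) (List.ofFn (u 0))
    rw [e3, List.map_ofFn, List.sum_ofFn]
    have e4 : ∀ j : Fin m, B (Fin.cons (u 0 j) (fun s : Fin n => (List.ofFn (u s.succ)).prod))
        = ∑ c : Fin n → Fin m, B (Fin.cons (u 0 j) (fun s => u s.succ (c s))) := by
      intro j
      refine ih (fun q => B (Fin.cons (u 0 j) q)) ?_ (fun s => u s.succ)
      intro p i g h
      rw [Fin.cons_update, Fin.cons_update, Fin.cons_update]
      exact hB _ _ _ _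
    simp only [Function.comp_def]
    rw [Finset.sum_congr rfl (fun j _ => e4 j)]
    rw [← (Fin.consEquiv (fun _ : Fin (n + 1) => Fin m)).sum_comp, Fintype.sum_prod_type]
    refine Finset.sum_congr rfl fun j _ => Finset.sum_congr rfl fun c _ => ?_
    congr 1
    funext s
    refine Fin.cases ?_ (fun k => ?_) s <;> simp [Fin.consEquiv]

theorem zero_of_one {G A : Type} [Group G] [AddCommGroup A] {n : ℕ} {B : (Fin n → G) → A}
    (hB : ∀ (p : Fin n → G) (i : Fin n) (g h : G),
      B (Function.update p i (g * h)) = B (Function.update p i g) + B (Function.update p i h))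
    (q : Fin n → G) (i : Fin n) (hi : q i = 1) : B q = 0 := by
  have h := hB q i 1 1
  rw [mul_one] at h
  have h0 : B (Function.update q i 1) = 0 := left_eq_add.mp h
  rwa [← hi, Function.update_eq_self] at h0

/-- polarization: B additive in each variable on a (noncommutative) group G -/
theorem polar {G A : Type} [Group G] [AddCommGroup A] (n : ℕ) (B : (Fin n → G) → A)
    (hB : ∀ (p : Fin n → G) (i : Fin n) (g h : G),
      B (Function.update p i (g * h)) = B (Function.update p i g) + B (Function.update p i h))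
    (e : (Fin n → ℕ) →₀ ℤ)
    (hlaw : ∀ v : ℕ → G, e.sum (fun s c => c • B (v ∘ s)) = 0)
    (i : Fin n → ℕ) (p : Fin n → G) :
    ∑ σ : Equiv.Perm (Fin n), e (i ∘ σ) • B (p ∘ σ) = 0 := by
  classical
  -- step 1
  have hF : ∀ p : Fin n → G, ∑ c : Fin n → Fin n, e (i ∘ c) • B (p ∘ c) = 0 := by
    intro p
    set v : ℕ → G := fun x => (List.ofFn (fun t : Fin n => if i t = x then p t else 1)).prod with hv
    have h1 : ∀ s : Fin n → ℕ, B (v ∘ s) = ∑ c : Fin n → Fin n, if i ∘ c = s then B (p ∘ c) else 0 := by
      intro s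
      have := expand n n B hB (fun r t => if i t = s r then p t else 1)
      have e0 : (v ∘ s) = fun r => (List.ofFn (fun t : Fin n => if i t = s r then p t else 1)).prod := by
        funext r; rfl
      rw [e0, this]
      refine Finset.sum_congr rfl fun c _ => ?_
      by_cases hc : i ∘ c = s
      · rw [if_pos hc]
        congr 1
        funext r
        have : i (c r) = s r := congrFun hc r
        simp [this]
      · rw [if_neg hc]
        have : ∃ r, i (c r) ≠ s r := by
          by_contra hcon
          push Not at hcon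
          exact hc (funext hcon)
        obtain ⟨r, hr⟩ := this
        exact zero_of_one hB _ r (if_neg hr)
    have h2 := hlaw v
    rw [Finsupp.sum] at h2
    simp only [h1, Finset.smul_sum] at h2
    rw [Finset.sum_comm] at h2
    rw [← h2]
    refine Finset.sum_congr rfl fun c _ => ?_
    simp only [smul_ite, smul_zero]
    rw [Finset.sum_ite_eq e.support (i ∘ c)]
    split_ifs with hc
    · rfl
    · rw [Finsupp.notMem_support_iff.mp hc, zero_smul]
  -- step 2
  let pT : Finset (Fin n) → Fin n → G := fun T s => if s ∈ T then p s else 1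
  let w : (Fin n → Fin n) → Fin n → ℤ := fun c t => if t ∈ Set.range c then 0 else -1
  have h3 : ∀ (T : Finset (Fin n)) (c : Fin n → Fin n),
      ((-1 : ℤ) ^ (univ \ T).card) • B (pT T ∘ c)
        = ((∏ t ∈ T, (1 : ℤ)) * ∏ t ∈ univ \ T, w c t) • B (p ∘ c) := by
    intro T c
    rw [Finset.prod_const_one, one_mul]
    by_cases hc : ∀ r, c r ∈ T
    · have : pT T ∘ c = p ∘ c := by
        funext r; simp [pT, hc r]
      rw [this]
      congr 1
      rw [← Finset.prod_const]
      refine Finset.prod_congr rfl fun t ht => ?_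
      have : t ∉ Set.range c := by
        rintro ⟨r, rfl⟩
        exact (Finset.mem_sdiff.mp ht).2 (hc r)
      simp only [w, if_neg this]
    · push Not at hc
      obtain ⟨r, hr⟩ := hc
      rw [zero_of_one hB (pT T ∘ c) r (by simp [pT, hr]), smul_zero,
        Finset.prod_eq_zero (i := c r) (by simp [hr]) (by simp [w]), zero_smul]
  have h4 : ∀ c : Fin n → Fin n,
      ∑ T ∈ (univ : Finset (Fin n)).powerset, ((-1 : ℤ) ^ (univ \ T).card) • B (pT T ∘ c)
        = if Function.Surjective c then B (p ∘ c) else 0 := by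
    intro c
    rw [Finset.sum_congr rfl (fun T _ => h3 T c), ← Finset.sum_smul,
      ← Finset.prod_add (fun _ => (1 : ℤ)) (w c) univ]
    split_ifs with hs
    · have : ∏ t : Fin n, (1 + w c t) = 1 := by
        refine Finset.prod_eq_one fun t _ => ?_
        have : t ∈ Set.range c := hs t
        simp only [w, if_pos this, add_zero]
      rw [this, one_smul]
    · have : ∃ t, t ∉ Set.range c := by
        by_contra hcon
        push Not at hcon
        exact hs hcon
      obtain ⟨t, ht⟩ := this
      rw [Finset.prod_eq_zero (i := t) (Finset.mem_univ t) (by simp only [w, if_neg ht]; norm_num),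
        zero_smul]
  have h5 : ∑ c : Fin n → Fin n, e (i ∘ c) • (if Function.Surjective c then B (p ∘ c) else 0) = 0 := by
    have : ∑ T ∈ (univ : Finset (Fin n)).powerset, ((-1 : ℤ) ^ (univ \ T).card) •
        ∑ c : Fin n → Fin n, e (i ∘ c) • B (pT T ∘ c) = 0 := by
      refine Finset.sum_eq_zero fun T _ => ?_
      rw [hF, smul_zero]
    refine Eq.trans ?_ this
    simp only [Finset.smul_sum]
    rw [Finset.sum_comm]
    refine Finset.sum_congr rfl fun c _ => ?_
    rw [← h4 c, Finset.smul_sum]
    refine Finset.sum_congr rfl fun T _ => ?_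
    rw [smul_comm]
  rw [← h5]
  refine Fintype.sum_of_injective (fun σ : Equiv.Perm (Fin n) => (σ : Fin n → Fin n))
    DFunLike.coe_injective _ _ ?_ ?_
  · intro c hc
    have : ¬ Function.Surjective c := by
      intro hs
      apply hc
      exact ⟨Equiv.ofBijective c ⟨Finite.injective_iff_surjective.mpr hs, hs⟩, by
        funext x; rfl⟩
    simp [this]
  · intro σ
    simp [σ.surjective]

theorem unpolar_card {G A : Type} [Group G] [AddCommGroup A]
    (n : ℕ) (B : (Fin n → G) → A)
    (e : (Fin n → ℕ) →₀ ℤ)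
    (h : ∀ (i : Fin n → ℕ) (p : Fin n → G), ∑ σ : Equiv.Perm (Fin n), e (i ∘ σ) • B (p ∘ σ) = 0)
    (v : ℕ → G) : (univ : Finset (Equiv.Perm (Fin n))).card • e.sum (fun s c => c • B (v ∘ s)) = 0 := by
  classical
  let f : (Fin n → ℕ) → A := fun s => e s • B (v ∘ s)
  have hsupp : Function.support f ⊆ (e.support : Set (Fin n → ℕ)) := by
    intro s hs
    rw [Function.mem_support] at hs
    rw [Finset.mem_coe, Finsupp.mem_support_iff]
    intro h0
    exact hs (by simp [f, h0])
  have hsum : e.sum (fun s c => c • B (v ∘ s)) = ∑ᶠ s, f s := by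
    rw [finsum_eq_sum_of_support_subset f hsupp]
    rfl
  have hσ : ∀ σ : Equiv.Perm (Fin n), ∑ᶠ i : Fin n → ℕ, f (i ∘ σ) = ∑ᶠ s, f s := by
    intro σ
    have := finsum_comp_equiv (f := f) (σ.symm.arrowCongr (Equiv.refl ℕ))
    rw [← this]
    refine finsum_congr fun i => ?_
    congr 1
  have hfin : ∀ σ ∈ (univ : Finset (Equiv.Perm (Fin n))),
      (Function.support fun i : Fin n → ℕ => f (i ∘ σ)).Finite := by
    intro σ _
    have : (Function.support fun i : Fin n → ℕ => f (i ∘ σ))
        ⊆ (fun i : Fin n → ℕ => i ∘ σ) ⁻¹' (e.support : Set (Fin n → ℕ)) := by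
      intro i hi
      exact hsupp hi
    refine Set.Finite.subset (Set.Finite.preimage ?_ (Finset.finite_toSet _)) this
    intro a _ b _ hab
    funext x
    have := congrFun hab (σ.symm x)
    simpa using this
  have h0 : ∑ᶠ i : Fin n → ℕ, ∑ σ : Equiv.Perm (Fin n), f (i ∘ σ) = 0 := by
    have : ∀ i : Fin n → ℕ, ∑ σ : Equiv.Perm (Fin n), f (i ∘ σ) = 0 := by
      intro i
      exact h i (v ∘ i)
    simp [this]
  rw [finsum_sum_comm _ _ hfin, Finset.sum_congr rfl (fun σ _ => hσ σ), Finset.sum_const] at h0
  rw [hsum]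
  exact h0

theorem unpolar {G A : Type} [Group G] [AddCommGroup A]
    (tf : ∀ a : A, ∀ m : ℕ, 0 < m → m • a = 0 → a = 0) (n : ℕ) (B : (Fin n → G) → A)
    (e : (Fin n → ℕ) →₀ ℤ)
    (h : ∀ (i : Fin n → ℕ) (p : Fin n → G), ∑ σ : Equiv.Perm (Fin n), e (i ∘ σ) • B (p ∘ σ) = 0)
    (v : ℕ → G) : e.sum (fun s c => c • B (v ∘ s)) = 0 := by
  classical
  let f : (Fin n → ℕ) → A := fun s => e s • B (v ∘ s)
  have hsupp : Function.support f ⊆ (e.support : Set (Fin n → ℕ)) := by
    intro s hs
    rw [Function.mem_support] at hs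
    rw [Finset.mem_coe, Finsupp.mem_support_iff]
    intro h0
    exact hs (by simp [f, h0])
  have hsum : e.sum (fun s c => c • B (v ∘ s)) = ∑ᶠ s, f s := by
    rw [finsum_eq_sum_of_support_subset f hsupp]
    rfl
  have hσ : ∀ σ : Equiv.Perm (Fin n), ∑ᶠ i : Fin n → ℕ, f (i ∘ σ) = ∑ᶠ s, f s := by
    intro σ
    have := finsum_comp_equiv (f := f) (σ.symm.arrowCongr (Equiv.refl ℕ))
    rw [← this]
    refine finsum_congr fun i => ?_
    congr 1
  have hfin : ∀ σ ∈ (univ : Finset (Equiv.Perm (Fin n))),
      (Function.support fun i : Fin n → ℕ => f (i ∘ σ)).Finite := by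
    intro σ _
    have : (Function.support fun i : Fin n → ℕ => f (i ∘ σ))
        ⊆ (fun i : Fin n → ℕ => i ∘ σ) ⁻¹' (e.support : Set (Fin n → ℕ)) := by
      intro i hi
      exact hsupp hi
    refine Set.Finite.subset (Set.Finite.preimage ?_ (Finset.finite_toSet _)) this
    intro a _ b _ hab
    funext x
    have := congrFun hab (σ.symm x)
    simpa using this
  have h0 : ∑ᶠ i : Fin n → ℕ, ∑ σ : Equiv.Perm (Fin n), f (i ∘ σ) = 0 := by
    have : ∀ i : Fin n → ℕ, ∑ σ : Equiv.Perm (Fin n), f (i ∘ σ) = 0 := by
      intro i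
      exact h i (v ∘ i)
    simp [this]
  rw [finsum_sum_comm _ _ hfin, Finset.sum_congr rfl (fun σ _ => hσ σ), Finset.sum_const] at h0
  rw [hsum]
  exact tf _ _ (Finset.card_pos.mpr Finset.univ_nonempty) h0

end Pool.Agent.RTQ14
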