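import Pool.Agent.RTQ14.Val
import Pool.Agent.RTQ14.Polar

set_option autoImplicit false

namespace Pool.Agent.RTQ14

open Subgroup
open scoped commutatorElement

theorem V_right {P : Type} [Group P] {n k j : ℕ} (h : L P n = ⊥) {u x x' : P} (hu : u ∈ L P k)
    (hx : x ∈ L P j) (hx' : x' ∈ L P j) (l : List P) (hl : n ≤ k + j + l.length + 2) :
    V ⁅u, x * x'⁆ l = V ⁅u, x⁆ l + V ⁅u, x'⁆ l := by
  have h1 : ⁅u, x⁆ ∈ L P (k + j + 1) := by
    have := comm_mem_L k j hx hu
    rwa [add_comm j k] at this
  have h2 : ⁅u, x'⁆ ∈ L P (k + j + 1) := by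
    have := comm_mem_L k j hx' hu
    rwa [add_comm j k] at this
  unfold V
  rw [bl_right h hu hx hx' l hl, val_mul (bl_center h h1 l (by omega))
    (bl_center h h2 l (by omega))]

/-- the left-normed commutator of a tuple -/
def Br {P : Type} [Group P] : (n : ℕ) → (Fin (n + 1) → P) → P
  | 0, v => v 0
  | n + 1, v => ⁅Br n (fun i => v i.castSucc), v (Fin.last (n + 1))⁆

theorem Br_mem {P : Type} [Group P] : ∀ (n : ℕ) (v : Fin (n + 1) → P), Br n v ∈ L P n
  | 0, _ => mem_L_zero _
  | n + 1, _ => comm_succ (Br_mem n _) _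

theorem map_Br {G H : Type} [Group G] [Group H] (f : G →* H) : ∀ (n : ℕ) (v : Fin (n + 1) → G),
    f (Br n v) = Br n (fun i => f (v i))
  | 0, _ => rfl
  | n + 1, v => by
    show f ⁅_, _⁆ = ⁅_, _⁆
    rw [map_commutatorElement, map_Br f n]

theorem Br_add {P : Type} [Group P] {N : ℕ} (hN : L P N = ⊥) : ∀ (n : ℕ) (l : List P),
    N ≤ n + l.length + 1 → ∀ (v : Fin (n + 1) → P) (i : Fin (n + 1)) (g h : P),
    V (Br n (Function.update v i (g * h))) l
      = V (Br n (Function.update v i g)) l + V (Br n (Function.update v i h)) l := by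
  intro n
  induction n with
  | zero =>
    intro l hl v i g h
    have hi : i = (0 : Fin 1) := Subsingleton.elim (α := Fin 1) _ _
    subst hi
    show V (Function.update v 0 (g * h) 0) l = V (Function.update v 0 g 0) l
      + V (Function.update v 0 h 0) l
    rw [Function.update_self, Function.update_self, Function.update_self]
    exact V_mul hN (mem_L_zero g) (mem_L_zero h) l hl
  | succ n ih =>
    intro l hl v i g h
    show V ⁅Br n (fun j => Function.update v i (g * h) j.castSucc),
        Function.update v i (g * h) (Fin.last (n + 1))⁆ l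
      = V ⁅Br n (fun j => Function.update v i g j.castSucc),
        Function.update v i g (Fin.last (n + 1))⁆ l
      + V ⁅Br n (fun j => Function.update v i h j.castSucc),
        Function.update v i h (Fin.last (n + 1))⁆ l
    refine Fin.lastCases ?_ (fun j => ?_) i
    · have e : ∀ x : P, (fun j : Fin (n + 1) => Function.update v (Fin.last (n + 1)) x j.castSucc)
          = fun j => v j.castSucc := by
        intro x; funext j
        rw [Function.update_of_ne (Fin.castSucc_lt_last j).ne]
      simp only [e, Function.update_self]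
      exact V_right hN (Br_mem n _) (mem_L_zero g) (mem_L_zero h) l (by omega)
    · have e : ∀ x : P, (fun k : Fin (n + 1) => Function.update v j.castSucc x k.castSucc)
          = Function.update (fun k : Fin (n + 1) => v k.castSucc) j x := by
        intro x; funext k
        by_cases hk : k = j
        · subst hk; rw [Function.update_self, Function.update_self]
        · rw [Function.update_of_ne hk, Function.update_of_ne]
          intro hh; exact hk (Fin.castSucc_injective _ hh)
      have e2 : ∀ x : P, Function.update v j.castSucc x (Fin.last (n + 1)) = v (Fin.last (n + 1)) :=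
        fun x => Function.update_of_ne (Fin.castSucc_lt_last j).ne' _ _
      simp only [e, e2]
      rw [← V_cons, ← V_cons, ← V_cons]
      exact ih (v (Fin.last (n + 1)) :: l) (by simp only [List.length_cons]; omega) _ j g h

/-- the left-normed commutators of generators span the lower central factors -/
theorem span_L {F : Type} [Group F] (x : ℕ → F) (hx : closure (Set.range x) = ⊤) : ∀ n : ℕ,
    L F n ≤ closure (Set.range (fun s : Fin (n + 1) → ℕ => Br n (fun i => x (s i))))
      ⊔ L F (n + 1) := by
  intro n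
  induction n with
  | zero =>
    have : Set.range x ⊆ Set.range (fun s : Fin (0 + 1) → ℕ => Br 0 (fun i => x (s i))) := by
      rintro _ ⟨i, rfl⟩
      exact ⟨fun _ => i, rfl⟩
    refine le_trans ?_ le_sup_left
    rw [L, Subgroup.lowerCentralSeries_zero, ← hx]
    exact closure_mono this
  | succ n ih =>
    set T : Subgroup F := closure (Set.range (fun s : Fin (n + 1 + 1) → ℕ =>
      Br (n + 1) (fun i => x (s i)))) ⊔ L F (n + 1 + 1) with hT
    have hT1 : L F (n + 2) ≤ T := le_sup_right
    have hT2 : T ≤ L F (n + 1) := by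
      rw [hT, sup_le_iff, closure_le]
      refine ⟨?_, fun z hz => L_mono (by omega) hz⟩
      rintro _ ⟨s, rfl⟩
      exact Br_mem _ _
    have hTc : ∀ t ∈ T, ∀ g : F, g * t * g⁻¹ ∈ T := by
      intro t ht g
      have : g * t * g⁻¹ = ⁅g, t⁆ * t := by rw [commutatorElement_def]; group
      rw [this]
      exact mul_mem (hT1 (comm_succ' (hT2 ht) g)) ht
    let U : Subgroup F :=
      { carrier := {u | ∀ g : F, ⁅u, g⁆ ∈ T}
        one_mem' := fun g => by rw [commutatorElement_one_left]; exact one_mem _
        mul_mem' := by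
          intro a b ha hb g
          have e : ⁅a * b, g⁆ = a * ⁅b, g⁆ * a⁻¹ * ⁅a, g⁆ := by
            simp only [commutatorElement_def]; group
          rw [e]
          exact mul_mem (hTc _ (hb g) a) (ha g)
        inv_mem' := by
          intro a ha g
          have e : ⁅a⁻¹, g⁆ = a⁻¹ * ⁅a, g⁆⁻¹ * a⁻¹⁻¹ := by
            simp only [commutatorElement_def]; group
          rw [e]
          exact hTc _ (inv_mem (ha g)) _ }
    have hU : L F n ≤ U := by
      refine le_trans ih ?_
      rw [sup_le_iff, closure_le]
      refine ⟨?_, fun z hz g => hT1 (comm_succ hz g)⟩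
      rintro _ ⟨s, rfl⟩
      let G : Subgroup F :=
        { carrier := {g | ⁅Br n (fun i => x (s i)), g⁆ ∈ T}
          one_mem' := by
            show ⁅_, (1 : F)⁆ ∈ T
            rw [commutatorElement_one_right]; exact one_mem _
          mul_mem' := by
            intro a b ha hb
            show ⁅_, a * b⁆ ∈ T
            have e : ∀ u : F, ⁅u, a * b⁆ = ⁅u, a⁆ * (a * ⁅u, b⁆ * a⁻¹) := by
              intro u; simp only [commutatorElement_def]; group
            rw [e]
            exact mul_mem ha (hTc _ hb a)
          inv_mem' := by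
            intro a ha
            show ⁅_, a⁻¹⁆ ∈ T
            have e : ∀ u : F, ⁅u, a⁻¹⁆ = a⁻¹ * ⁅u, a⁆⁻¹ * a⁻¹⁻¹ := by
              intro u; simp only [commutatorElement_def]; group
            rw [e]
            exact hTc _ (inv_mem ha) _ }
      have hG : G = ⊤ := by
        rw [eq_top_iff, ← hx, closure_le]
        rintro _ ⟨j, rfl⟩
        show ⁅Br n (fun i => x (s i)), x j⁆ ∈ T
        apply (le_sup_left : _ ≤ T)
        apply Subgroup.subset_closure
        refine ⟨Fin.snoc s j, ?_⟩
        show ⁅Br n (fun i => x ((Fin.snoc s j : Fin (n + 2) → ℕ) i.castSucc)),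
          x ((Fin.snoc s j : Fin (n + 2) → ℕ) (Fin.last (n + 1)))⁆ = _
        simp only [Fin.snoc_castSucc, Fin.snoc_last]
      intro g
      have : g ∈ G := by rw [hG]; exact mem_top g
      exact this
    rw [L, Subgroup.lowerCentralSeries_succ, commutator_le]
    intro u hu g _
    exact hU hu g

theorem fs_add {A S : Type} [AddCommGroup A] (f : S → A) (a b : S →₀ ℤ) :
    (a + b).sum (fun s c => c • f s) = a.sum (fun s c => c • f s) + b.sum (fun s c => c • f s) :=
  Finsupp.sum_add_index' (fun _ => zero_smul _ _) (fun _ _ _ => add_smul _ _ _)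

theorem fs_neg {A S : Type} [AddCommGroup A] (f : S → A) (a : S →₀ ℤ) :
    (-a).sum (fun s c => c • f s) = -a.sum (fun s c => c • f s) := by
  have := fs_add f a (-a)
  rw [add_neg_cancel, Finsupp.sum_zero_index] at this
  exact (neg_eq_of_add_eq_zero_right this.symm).symm

theorem fs_single {A S : Type} [AddCommGroup A] (f : S → A) (s : S) :
    (Finsupp.single s (1 : ℤ)).sum (fun s c => c • f s) = f s := by
  rw [Finsupp.sum_single_index (by rw [zero_smul]), one_smul]

/-- the value of the product with exponents `e` -/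
noncomputable def ev {H : Type} [Group H] (n : ℕ) (e : (Fin (n + 1) → ℕ) →₀ ℤ) (v : ℕ → H) : ZA H :=
  e.sum (fun s c => c • val (Br n (fun i => v (s i))))

/-- an element of the `n`-th term is a product of left-normed commutators of generators in all
groups of class at most `n + 1` -/
theorem repr_L (n : ℕ) {w : FreeGroup ℕ} (hw : w ∈ L (FreeGroup ℕ) n) :
    ∃ e : (Fin (n + 1) → ℕ) →₀ ℤ, ∀ (H : Type) [Group H], L H (n + 1) = ⊥ →
      ∀ θ : FreeGroup ℕ →* H, val (θ w) = ev n e (fun i => θ (FreeGroup.of i)) := by
  have h1 := span_L (F := FreeGroup ℕ) FreeGroup.of (FreeGroup.closure_range_of ℕ) n hw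
  obtain ⟨a, ha, b, hb, rfl⟩ := Subgroup.mem_sup_of_normal_right.mp h1
  have key : a ∈ L (FreeGroup ℕ) n ∧ ∃ e : (Fin (n + 1) → ℕ) →₀ ℤ, ∀ (H : Type) [Group H],
      L H (n + 1) = ⊥ → ∀ θ : FreeGroup ℕ →* H,
        val (θ a) = ev n e (fun i => θ (FreeGroup.of i)) := by
    clear hw h1
    induction ha using Subgroup.closure_induction with
    | mem a ha =>
      obtain ⟨s, rfl⟩ := ha
      refine ⟨Br_mem _ _, Finsupp.single s 1, fun H _ _ θ => ?_⟩
      unfold ev
      rw [fs_single, map_Br]
    | one =>
      refine ⟨one_mem _, 0, fun H _ _ θ => ?_⟩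
      unfold ev
      rw [map_one, val_one, Finsupp.sum_zero_index]
    | mul a b _ _ ha hb =>
      obtain ⟨ha0, ea, ha⟩ := ha
      obtain ⟨hb0, eb, hb⟩ := hb
      refine ⟨mul_mem ha0 hb0, ea + eb, fun H _ hH θ => ?_⟩
      have c1 : θ a ∈ center H := RTN14.lcs_le_center hH (RTN14.map_lcs_mem θ n ha0)
      have c2 : θ b ∈ center H := RTN14.lcs_le_center hH (RTN14.map_lcs_mem θ n hb0)
      rw [map_mul, val_mul c1 c2, ha H hH θ, hb H hH θ]
      unfold ev
      rw [fs_add]
    | inv a _ ha =>
      obtain ⟨ha0, ea, ha⟩ := ha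
      refine ⟨inv_mem ha0, -ea, fun H _ hH θ => ?_⟩
      have c1 : θ a ∈ center H := RTN14.lcs_le_center hH (RTN14.map_lcs_mem θ n ha0)
      rw [map_inv, val_inv c1, ha H hH θ]
      unfold ev
      rw [fs_neg]
  obtain ⟨_, e, he⟩ := key
  refine ⟨e, fun H _ hH θ => ?_⟩
  have hb1 : θ b = 1 := by
    have := RTN14.map_lcs_mem θ (n + 1) hb
    rwa [show (⊤ : Subgroup H).lowerCentralSeries (n + 1) = ⊥ from hH, mem_bot] at this
  rw [map_mul, hb1, mul_one]
  exact he H hH θ

end Pool.Agent.RTQ14
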