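import Pool.Agent.RTQ14.Nil
import Pool.Agent.RTQ14.Span
import Pool.Agent.RTQ14.Four

set_option autoImplicit false

namespace Pool.Agent.RTQ14

open Subgroup
open scoped commutatorElement
open Pool.Agent.RTN14

/-- the left-normed commutator of weight `n + 1` with values in the centre -/
noncomputable def BB (H : Type) [Group H] (n : ℕ) (v : Fin (n + 1) → H) : ZA H := V (Br n v) []

theorem BB_add {H : Type} [Group H] {n : ℕ} (h : L H (n + 1) = ⊥) (p : Fin (n + 1) → H)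
    (i : Fin (n + 1)) (x y : H) : BB H n (Function.update p i (x * y))
      = BB H n (Function.update p i x) + BB H n (Function.update p i y) :=
  Br_add h n [] (by simp) p i x y

/-- an element of `L n` of the free group vanishes in `H` under all homomorphisms: the polarized
identities hold -/
theorem polar_law {H : Type} [Group H] {n : ℕ} (h : L H (n + 1) = ⊥)
    {e : (Fin (n + 1) → ℕ) →₀ ℤ} (he : ∀ v : ℕ → H, ev n e v = 0) (i : Fin (n + 1) → ℕ)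
    (p : Fin (n + 1) → H) :
    ∑ σ : Equiv.Perm (Fin (n + 1)), e (i ∘ σ) • BB H n (p ∘ σ) = 0 :=
  polar (n + 1) (BB H n) (BB_add h) e he i p

theorem lie4 {H : Type} [Group H] (h : L H 4 = ⊥) : Lie4 (BB H 3) := by
  constructor
  · intro a x y z
    exact V_skew h (m0 a) (m0 x) [y, z] (by simp)
  · intro a x y z
    show V ⁅⁅x, y⁆, a⁆ [z] = - V ⁅⁅a, x⁆, y⁆ [z] + V ⁅⁅a, y⁆, x⁆ [z]
    rw [V_skew h (m0 a) (m1 x y) [z] (by simp), V_lie h (m0 a) (m0 x) (m0 y) [z] (by simp)]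
    abel
  · intro a x y z
    show V ⁅⁅⁅x, y⁆, z⁆, a⁆ [] = - V ⁅⁅⁅a, x⁆, y⁆, z⁆ [] + V ⁅⁅⁅a, y⁆, x⁆, z⁆ []
      + V ⁅⁅⁅a, z⁆, x⁆, y⁆ [] - V ⁅⁅⁅a, z⁆, y⁆, x⁆ []
    rw [V_skew h (m0 a) (m2 x y z) [] (by simp), V_lie h (m0 a) (m1 x y) (m0 z) [] (by simp),
      V_lie h (m1 a z) (m0 x) (m0 y) [] (by simp), ← V_cons ⁅a, ⁅x, y⁆⁆ z [],
      V_lie h (m0 a) (m0 x) (m0 y) [z] (by simp)]
    simp only [V_cons]
    abel

theorem lie3 {H : Type} [Group H] (h : L H 3 = ⊥) : Lie3 (BB H 2) := by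
  constructor
  · intro a x y
    exact V_skew h (m0 a) (m0 x) [y] (by simp)
  · intro a x y
    show V ⁅⁅x, y⁆, a⁆ [] = - V ⁅⁅a, x⁆, y⁆ [] + V ⁅⁅a, y⁆, x⁆ []
    rw [V_skew h (m0 a) (m1 x y) [] (by simp), V_lie h (m0 a) (m0 x) (m0 y) [] (by simp)]
    abel

theorem lie2 {H : Type} [Group H] (h : L H 2 = ⊥) (a x : H) :
    BB H 1 ![x, a] = - BB H 1 ![a, x] :=
  V_skew h (m0 a) (m0 x) [] (by simp)

theorem Br_one {H : Type} [Group H] {n : ℕ} (h : L H (n + 1) = ⊥)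
    (hB : ∀ p, BB H n p = 0) (p : Fin (n + 1) → H) : Br n p = 1 :=
  eq_one_of_val (lcs_le_center h (Br_mem n p)) (hB p)

/-- evaluation of the left-normed word is a left-normed commutator -/
theorem left_eval {H : Type} [Group H] : ∀ (n : ℕ) (y : (left n).Leaf → H),
    ∃ v : Fin (n + 1) → H, (left n).eval y = Br n v
  | 0, y => ⟨fun _ => y (), rfl⟩
  | n + 1, y => by
    obtain ⟨v, hv⟩ := left_eval n (fun i => y (Sum.inl i))
    refine ⟨Fin.snoc v (y (Sum.inr ())), ?_⟩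
    show ⁅(left n).eval (fun i => y (Sum.inl i)), y (Sum.inr ())⁆
      = ⁅Br n (fun i => (Fin.snoc v (y (Sum.inr ())) : Fin (n + 2) → H) i.castSucc),
        (Fin.snoc v (y (Sum.inr ())) : Fin (n + 2) → H) (Fin.last (n + 1))⁆
    simp only [Fin.snoc_castSucc, Fin.snoc_last, hv]

/-- if the identity of degree `n + 1` forces all brackets to vanish then `V` is nilpotent -/
theorem nil_of_zero {W : Set (FreeGroup ℕ)} (hres : ResTFN (Rel W)) (n : ℕ)
    (hB : ∀ (H : Type) [Group H], TF H → L H (n + 1) = ⊥ → Sat W H → ∀ p, BB H n p = 0)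
    (H : Type) [Group H] (hH : Sat W H) : L H n = ⊥ := by
  apply left_criterion hres n _ H hH
  intro H _ h1 h2 h3 y
  obtain ⟨v, hv⟩ := left_eval n y
  rw [hv]
  exact Br_one h2 (hB H h1 h2 h3) v

theorem ev_law {W : Set (FreeGroup ℕ)} {n : ℕ} {u : FreeGroup ℕ} (hu : u ∈ Verbal W)
    {e : (Fin (n + 1) → ℕ) →₀ ℤ}
    (he : ∀ (H : Type) [Group H], L H (n + 1) = ⊥ →
      ∀ θ : FreeGroup ℕ →* H, val (θ u) = ev n e (fun i => θ (FreeGroup.of i)))
    (H : Type) [Group H] (hn : L H (n + 1) = ⊥) (hH : Sat W H) (v : ℕ → H) : ev n e v = 0 := by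
  have h1 := he H hn (FreeGroup.lift v)
  rw [verbal_le_ker hH (FreeGroup.lift v) hu, val_one] at h1
  rw [h1]
  simp only [FreeGroup.lift_apply_of]

/-- all polarized identities are trivial: a power lies one step deeper -/
theorem deeper {n : ℕ} {u : FreeGroup ℕ} (hu : u ∈ L (FreeGroup ℕ) n)
    {e : (Fin (n + 1) → ℕ) →₀ ℤ}
    (he : ∀ (H : Type) [Group H], L H (n + 1) = ⊥ →
      ∀ θ : FreeGroup ℕ →* H, val (θ u) = ev n e (fun i => θ (FreeGroup.of i)))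
    (h : ∀ (H : Type) [Group H], L H (n + 1) = ⊥ → ∀ (i : Fin (n + 1) → ℕ) (p : Fin (n + 1) → H),
      ∑ σ : Equiv.Perm (Fin (n + 1)), e (i ∘ σ) • BB H n (p ∘ σ) = 0)
    (H : Type) [Group H] (hn : L H (n + 1) = ⊥) (θ : FreeGroup ℕ →* H) :
    (θ u) ^ (Finset.univ : Finset (Equiv.Perm (Fin (n + 1)))).card = 1 := by
  have h1 := unpolar_card (n + 1) (BB H n) e (h H hn) (fun i => θ (FreeGroup.of i))
  have h2 : (Finset.univ : Finset (Equiv.Perm (Fin (n + 1)))).card • val (θ u) = 0 := by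
    rw [he H hn θ]
    exact h1
  have hc : θ u ∈ center H := lcs_le_center hn (map_lcs_mem θ n hu)
  apply eq_one_of_val (pow_mem hc _)
  have h3 := val_zpow hc ((Finset.univ : Finset (Equiv.Perm (Fin (n + 1)))).card : ℤ)
  rw [zpow_natCast] at h3
  rw [h3, natCast_zsmul]
  exact h2

theorem deeper_mem {n : ℕ} {u : FreeGroup ℕ} (hu : u ∈ L (FreeGroup ℕ) n)
    {e : (Fin (n + 1) → ℕ) →₀ ℤ}
    (he : ∀ (H : Type) [Group H], L H (n + 1) = ⊥ →
      ∀ θ : FreeGroup ℕ →* H, val (θ u) = ev n e (fun i => θ (FreeGroup.of i)))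
    (h : ∀ (H : Type) [Group H], L H (n + 1) = ⊥ → ∀ (i : Fin (n + 1) → ℕ) (p : Fin (n + 1) → H),
      ∑ σ : Equiv.Perm (Fin (n + 1)), e (i ∘ σ) • BB H n (p ∘ σ) = 0) :
    ∃ k : ℕ, 0 < k ∧ u ^ k ∈ L (FreeGroup ℕ) (n + 1) := by
  refine ⟨(Finset.univ : Finset (Equiv.Perm (Fin (n + 1)))).card,
    Finset.card_pos.mpr ⟨1, Finset.mem_univ _⟩, ?_⟩
  have h1 := deeper hu he h (FreeGroup ℕ ⧸ L (FreeGroup ℕ) (n + 1)) (lcs_quot _ le_rfl)
    (QuotientGroup.mk' _)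
  rw [← map_pow] at h1
  exact (QuotientGroup.eq_one_iff _).mp h1

end Pool.Agent.RTQ14
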