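import Mathlib

set_option autoImplicit false

namespace Pool.Agent.RTQ14

/-- A multilinear bracket of length five with the Lie relations (moving an entry to the front) in
which all the symmetrised words with a commutator as an entry vanish is zero. -/
theorem five {X A : Type} [AddCommGroup A]
    (tf : ∀ a : A, ∀ n : ℕ, 0 < n → n • a = 0 → a = 0) (D : X → X → X → X → X → A)
    (h2 : ∀ a x y z t, D x a y z t = - D a x y z t)
    (h3 : ∀ a x y z t, D x y a z t = - D a x y z t + D a y x z t)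
    (h4 : ∀ a x y z t, D x y z a t = - D a x y z t + D a y x z t + D a z x y t - D a z y x t)
    (h5 : ∀ a x y z t, D x y z t a = - D a x y z t + D a y x z t + D a z x y t - D a z y x t
      + D a t x y z - D a t y x z - D a t z x y + D a t z y x)
    (hR : ∀ b c d a e, D b c d a e - D b d c a e + D b c d e a - D b d c e a
      + D b a c d e - D b a d c e + D b e c d a - D b e d c a
      + D b a e c d - D b a e d c + D b e a c d - D b e a d c = 0)
    (x1 x2 x3 x4 x5 : X) : D x1 x2 x3 x4 x5 = 0 := by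
  have r0 := hR x1 x2 x4 x3 x5
  have r1 := hR x1 x2 x5 x3 x4
  have r2 := hR x1 x3 x5 x2 x4
  have r3 := hR x1 x4 x5 x2 x3
  have r4 := hR x2 x1 x4 x3 x5
  have r5 := hR x2 x1 x5 x3 x4
  have r6 := hR x2 x3 x5 x1 x4
  have r7 := hR x2 x4 x5 x1 x3
  have r8 := hR x3 x1 x4 x2 x5
  have r9 := hR x3 x1 x5 x2 x4
  have r10 := hR x3 x2 x4 x1 x5
  have r11 := hR x3 x2 x5 x1 x4
  have r12 := hR x4 x1 x5 x2 x3
  have r13 := hR x4 x2 x5 x1 x3
  have r14 := hR x5 x1 x2 x3 x4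
  have r15 := hR x5 x1 x3 x2 x4
  have r16 := hR x5 x1 x4 x2 x3
  have r17 := hR x5 x2 x3 x1 x4
  have r18 := hR x5 x2 x4 x1 x3
  simp only [h2 x1, h3 x1, h4 x1, h5 x1] at r0 r1 r2 r3 r4 r5 r6 r7 r8 r9 r10 r11 r12 r13 r14 r15 r16 r17 r18
  have key : (40 : ℤ) • D x1 x2 x3 x4 x5 = 0 := by
    linear_combination (norm := module) (-9 : ℤ) • r0 + (25 : ℤ) • r1 + (8 : ℤ) • r2 + (11 : ℤ) • r3 + (9 : ℤ) • r4 + (-25 : ℤ) • r5 + (-8 : ℤ) • r6 + (-11 : ℤ) • r7 + (9 : ℤ) • r8 + (-17 : ℤ) • r9 + (-9 : ℤ) • r10 + (17 : ℤ) • r11 + (-20 : ℤ) • r12 + (20 : ℤ) • r13 + (8 : ℤ) • r14 + (4 : ℤ) • r15 + (12 : ℤ) • r16 + (-4 : ℤ) • r17 + (-12 : ℤ) • r18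
  apply tf _ 40 (by norm_num)
  rw [← key]; norm_cast

end Pool.Agent.RTQ14
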