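import Pool.Agent.RTN14.Main
import Pool.Agent.RTQ14.Cls5

set_option autoImplicit false

namespace Pool.Agent.RTQ14

open Subgroup
open scoped commutatorElement
open Pool.Agent.RTN14

/-- elements vanishing in all torsion-free images of class at most `c` -/
theorem kernel_mem {P : Type} [Group P] [Group.IsNilpotent P] (hTF : TF P) (c : ℕ)
    (hc : L P (c + 1) = ⊥) {z : P}
    (hz : ∀ (H : Type) [Group H], TF H → L H c = ⊥ → ∀ f : P →* H, f z = 1) :
    ∀ φ φ' : P →* P, (∀ g, φ g * (φ' g)⁻¹ ∈ commutator P) → φ z = φ' z := by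
  let K : Subgroup P :=
    { carrier := {z | z ∈ center P ∧ (∀ φ φ' : P →* P,
        (∀ g, φ g * (φ' g)⁻¹ ∈ commutator P) → φ z = φ' z)}
      one_mem' := ⟨one_mem _, fun _ _ _ => by simp⟩
      mul_mem' := by
        rintro a b ⟨ha1, ha2⟩ ⟨hb1, hb2⟩
        refine ⟨mul_mem ha1 hb1, fun φ φ' h => ?_⟩
        rw [map_mul, map_mul, ha2 φ φ' h, hb2 φ φ' h]
      inv_mem' := by
        rintro a ⟨ha1, ha2⟩
        refine ⟨inv_mem ha1, fun φ φ' h => ?_⟩
        rw [map_inv, map_inv, ha2 φ φ' h] }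
  have hKc : K ≤ center P := fun z hz => hz.1
  have hKn : K.Normal := by
    constructor
    intro n hn g
    have : g * n * g⁻¹ = n := by rw [mem_center_iff.mp (hKc hn) g, mul_inv_cancel_right]
    rw [this]; exact hn
  have hlK : L P c ≤ K := by
    intro z hz
    refine ⟨lcs_le_center hc hz, fun φ φ' h => ?_⟩
    have := graded 1 c P P φ φ' hc (by simpa using h) z hz
    simpa using this
  have hKi : ∀ z : P, ∀ n : ℕ, 0 < n → z ^ n ∈ K → z ∈ K := by
    rintro z n hn ⟨h1, h2⟩
    refine ⟨center_isolated hTF hn h1, fun φ φ' h => ?_⟩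
    apply uroot P hTF _ _ n hn
    rw [← map_pow, ← map_pow, h2 φ φ' h]
  have hTFq : TF (P ⧸ K) := by
    intro h n hn hh
    obtain ⟨g, rfl⟩ := QuotientGroup.mk_surjective h
    rw [← QuotientGroup.mk_pow, QuotientGroup.eq_one_iff] at hh
    exact (QuotientGroup.eq_one_iff g).mpr (hKi g n hn hh)
  have := hz (P ⧸ K) hTFq (lcs_quot K hlK) (QuotientGroup.mk' K)
  exact ((QuotientGroup.eq_one_iff _).mp this).2

theorem map_bl {G H : Type} [Group G] [Group H] (f : G →* H) (l : List G) : ∀ u : G,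
    f (bl u l) = bl (f u) (l.map f) := by
  induction l with
  | nil => intro u; rfl
  | cons x l ih => intro u; rw [bl_cons, ih, map_commutatorElement]; rfl

theorem map_Sw {G H : Type} [Group G] [Group H] (f : G →* H) (b x y z : G) :
    f (Sw b x y z) = Sw (f b) (f x) (f y) (f z) := by
  unfold Sw
  simp only [map_mul, map_bl, List.map]

theorem Sw_one {G : Type} [Group G] (b y z : G) : Sw b 1 y z = 1 := by
  unfold Sw
  simp [bl]

/-- the symmetrised identity with a commutator as an entry -/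
theorem sw_quot {W : Set (FreeGroup ℕ)}
    (hS : ∀ (H : Type) [Group H], TF H → L H 4 = ⊥ → Sat W H → ∀ b x y z : H, Sw b x y z = 1)
    (b c d a e : Rel W ⧸ Ker W 5) : Sw b ⁅c, d⁆ a e = 1 := by
  have hnil : Group.IsNilpotent (Rel W ⧸ Ker W 5) :=
    Subgroup.nilpotent_iff_lowerCentralSeries.mpr ⟨5, lcs_ker W 5⟩
  have hgen : closure (Set.range (fun i : ℕ =>
      (QuotientGroup.mk (QuotientGroup.mk (FreeGroup.of i) : Rel W) : Rel W ⧸ Ker W 5))) = ⊤ := by
    have h2 := congrArg (Subgroup.map (QuotientGroup.mk' (Ker W 5))) (gen_rel W)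
    rw [MonoidHom.map_closure, ← Set.range_comp, ← MonoidHom.range_eq_map,
      MonoidHom.range_eq_top.mpr (QuotientGroup.mk'_surjective _)] at h2
    exact h2
  have hfree : ∀ p : ℕ → Rel W ⧸ Ker W 5, ∃ φ : (Rel W ⧸ Ker W 5) →* (Rel W ⧸ Ker W 5),
      ∀ i, φ (QuotientGroup.mk (QuotientGroup.mk (FreeGroup.of i) : Rel W)) = p i := by
    intro p
    have hs : ∀ i, ∃ a : Rel W, (QuotientGroup.mk a : Rel W ⧸ Ker W 5) = p i :=
      fun i => QuotientGroup.mk_surjective _
    choose a ha using hs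
    obtain ⟨φ, hφ⟩ := exists_hom (sat_rel W) a
    refine ⟨QuotientGroup.map (Ker W 5) (Ker W 5) φ ?_, ?_⟩
    · intro z hz H _ h1 h2 f
      exact hz H h1 h2 (f.comp φ)
    · intro i
      rw [QuotientGroup.map_mk, hφ, ha]
  set x : ℕ → Rel W ⧸ Ker W 5 := fun i => QuotientGroup.mk (QuotientGroup.mk (FreeGroup.of i) : Rel W)
    with hx
  have hz : ∀ (H : Type) [Group H], TF H → L H 4 = ⊥ → ∀ f : (Rel W ⧸ Ker W 5) →* H,
      f (Sw (x 0) (x 1) (x 2) (x 3)) = 1 := by
    intro H _ h1 h2 f
    let g : Rel W →* H := f.comp (QuotientGroup.mk' (Ker W 5))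
    have h1' : TF g.range := by
      intro u n hn hg
      apply Subtype.ext
      apply h1 _ n hn
      rw [← Subgroup.coe_pow, hg]; rfl
    have h2' : L g.range 4 = ⊥ := by
      rw [L, ← Subgroup.map_subtype_inj, Subgroup.map_bot, Subgroup.top_subtype_lowerCentralSeries,
        eq_bot_iff]
      exact (Subgroup.lowerCentralSeries_mono 4 le_top).trans h2.le
    have h3 := hS g.range h1' h2' (sat_range g) (g.rangeRestrict (QuotientGroup.mk (FreeGroup.of 0)))
      (g.rangeRestrict (QuotientGroup.mk (FreeGroup.of 1)))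
      (g.rangeRestrict (QuotientGroup.mk (FreeGroup.of 2)))
      (g.rangeRestrict (QuotientGroup.mk (FreeGroup.of 3)))
    have h4 := congrArg g.range.subtype h3
    rw [map_Sw, map_one] at h4
    rw [map_Sw]
    exact h4
  have hk := kernel_mem (tf_ker W 5) 4 (lcs_ker W 5) hz
  obtain ⟨φ, hφ⟩ := hfree (fun i => if i = 0 then b else if i = 1 then ⁅c, d⁆ else if i = 2 then a
    else e)
  obtain ⟨φ', hφ'⟩ := hfree (fun i => if i = 0 then b else if i = 1 then 1 else if i = 2 then a
    else e)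
  have h1 := hk φ φ' (by
    have h3 : (Abelianization.of (G := Rel W ⧸ Ker W 5)).comp φ
        = (Abelianization.of (G := Rel W ⧸ Ker W 5)).comp φ' := by
      apply congr_mod_comm x hgen
      intro j
      rw [MonoidHom.comp_apply, MonoidHom.comp_apply, hφ, hφ']
      by_cases h0 : j = 0
      · simp [h0]
      · by_cases h1 : j = 1
        · subst h1
          simp only [one_ne_zero, if_false, if_true, map_one, map_commutatorElement]
          exact commutatorElement_eq_one_iff_mul_comm.mpr (mul_comm _ _)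
        · simp [h0, h1]
    intro g
    apply mem_comm_of
    exact DFunLike.congr_fun h3 g)
  rw [map_Sw, map_Sw, hφ, hφ, hφ, hφ, hφ', hφ', hφ', hφ'] at h1
  simpa [Sw_one] using h1

end Pool.Agent.RTQ14
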