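import Pool.Agent.RTQ14.Deg

set_option autoImplicit false

namespace Pool.Agent.RTQ14

open Subgroup
open scoped commutatorElement
open Pool.Agent.RTN14

theorem nil_of_sym {W : Set (FreeGroup ℕ)} (hres : ResTFN (Rel W))
    (hS : ∀ (H : Type) [Group H], TF H → L H 4 = ⊥ → Sat W H → ∀ b x y z : H, Sw b x y z = 1)
    (H : Type) [Group H] (hH : Sat W H) : L H 4 = ⊥ := by
  apply left_criterion hres 4 _ H hH
  intro H _ h1 h2 h3 y
  obtain ⟨v, hv⟩ := left_eval 4 y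
  rw [hv]
  obtain ⟨f, hf⟩ := exists_hom h3 (fun i => if h : i < 5 then v ⟨i, h⟩ else 1)
  set x : ℕ → Rel W := fun i => QuotientGroup.mk (FreeGroup.of i) with hx
  have key := nil4_of_S (tf_ker W 5) (lcs_ker W 5) (sw_quot hS) (QuotientGroup.mk (x 0))
    (QuotientGroup.mk (x 1)) (QuotientGroup.mk (x 2)) (QuotientGroup.mk (x 3))
    (QuotientGroup.mk (x 4))
  have k2 : (QuotientGroup.mk' (Ker W 5)) (bl (x 0) [x 1, x 2, x 3, x 4]) = 1 := by
    rw [map_bl]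
    exact key
  have k3 : bl (x 0) [x 1, x 2, x 3, x 4] ∈ Ker W 5 := (QuotientGroup.eq_one_iff _).mp k2
  have k4 := k3 H h1 h2 f
  rw [map_bl] at k4
  simp only [List.map] at k4
  rw [hx] at k4
  simp only [hf] at k4
  exact k4

theorem sw_of_sym {H : Type} [Group H] (h : L H 4 = ⊥) (hB : Sym4 (BB H 3)) (b x y z : H) :
    Sw b x y z = 1 := by
  have c : ∀ x y z : H, bl b [x, y, z] ∈ center H := fun x y z =>
    bl_center h (m0 b) _ (by simp)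
  have s : val (Sw b x y z) = 0 := by
    unfold Sw
    rw [val_mul (mul_mem (mul_mem (mul_mem (mul_mem (c _ _ _) (c _ _ _)) (c _ _ _)) (c _ _ _))
        (c _ _ _)) (c _ _ _),
      val_mul (mul_mem (mul_mem (mul_mem (c _ _ _) (c _ _ _)) (c _ _ _)) (c _ _ _)) (c _ _ _),
      val_mul (mul_mem (mul_mem (c _ _ _) (c _ _ _)) (c _ _ _)) (c _ _ _),
      val_mul (mul_mem (c _ _ _) (c _ _ _)) (c _ _ _), val_mul (c _ _ _) (c _ _ _)]
    exact hB b x y z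
  refine eq_one_of_val ?_ s
  unfold Sw
  exact mul_mem (mul_mem (mul_mem (mul_mem (mul_mem (c _ _ _) (c _ _ _)) (c _ _ _)) (c _ _ _))
    (c _ _ _)) (c _ _ _)

theorem met_of_met {W : Set (FreeGroup ℕ)} (hres : ResTFN (Rel W))
    (hM : ∀ (H : Type) [Group H], TF H → L H 4 = ⊥ → Sat W H → Met4 (BB H 3))
    (H : Type) [Group H] (hH : Sat W H) : derivedSeries H 2 = ⊥ := by
  apply derived_transfer 2 _ H hH
  apply derivedSeries_eq_bot
  apply criterion hres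
  intro H _ h1 h2 h3 y
  rw [OC.weight_derived] at h2
  have h2' : L H 4 = ⊥ := h2
  have hB := hM H h1 h2' h3
  obtain ⟨a, b, c, d, e⟩ : ∃ a b c d : H, (OC.derived 2).eval y = ⁅⁅a, b⁆, ⁅c, d⁆⁆ :=
    ⟨_, _, _, _, rfl⟩
  rw [e]
  have hc : ⁅⁅a, b⁆, ⁅c, d⁆⁆ ∈ center H :=
    lcs_le_center h2' (comm_mem_L 1 1 (m1 c d) (m1 a b))
  apply eq_one_of_val hc
  have h4 : V ⁅⁅a, b⁆, ⁅c, d⁆⁆ [] = V ⁅⁅⁅a, b⁆, c⁆, d⁆ [] - V ⁅⁅⁅a, b⁆, d⁆, c⁆ [] :=
    V_lie h2' (m1 a b) (m0 c) (m0 d) [] (by simp)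
  have h5 : V ⁅⁅⁅a, b⁆, c⁆, d⁆ [] = V ⁅⁅⁅a, b⁆, d⁆, c⁆ [] := hB a b c d
  show V ⁅⁅a, b⁆, ⁅c, d⁆⁆ [] = 0
  rw [h4, h5, sub_self]

/-- one step down the lower central series -/
theorem down {W : Set (FreeGroup ℕ)} (hres : ResTFN (Rel W)) {n : ℕ} (hn3 : n ≤ 4)
    (alt : ∀ E : Equiv.Perm (Fin (n + 1)) → ℤ,
      (∀ (H : Type) [Group H], L H (n + 1) = ⊥ → ∀ p : Fin (n + 1) → H,
        ∑ σ, E σ • BB H n (p ∘ σ) = 0) ∨
      (∀ (H : Type) [Group H], TF H → L H (n + 1) = ⊥ →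
        (∀ p : Fin (n + 1) → H, ∑ σ, E σ • BB H n (p ∘ σ) = 0) → ∀ p, BB H n p = 0))
    (hnot : ¬ ∀ (H : Type) [Group H], Sat W H → L H 4 = ⊥)
    {u : FreeGroup ℕ} (hu : u ∈ Verbal W) (hL : u ∈ L (FreeGroup ℕ) n)
    (hne : ∀ k : ℕ, 0 < k → u ^ k ∉ L (FreeGroup ℕ) 4) :
    ∃ u' ∈ Verbal W, u' ∈ L (FreeGroup ℕ) (n + 1) ∧
      ∀ k : ℕ, 0 < k → u' ^ k ∉ L (FreeGroup ℕ) 4 := by
  obtain ⟨e, he⟩ := repr_L n hL
  by_cases hall : ∀ i : Fin (n + 1) → ℕ, ∀ (H : Type) [Group H], L H (n + 1) = ⊥ →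
      ∀ p : Fin (n + 1) → H, ∑ σ : Equiv.Perm (Fin (n + 1)), e (i ∘ σ) • BB H n (p ∘ σ) = 0
  · obtain ⟨k, hk, hk2⟩ := deeper_mem hL he (fun H _ hH i p => hall i H hH p)
    refine ⟨u ^ k, pow_mem hu k, hk2, fun j hj h => ?_⟩
    rw [← pow_mul] at h
    exact hne (k * j) (Nat.mul_pos hk hj) h
  · exfalso
    obtain ⟨i, hi⟩ := not_forall.mp hall
    rcases alt (fun σ => e (i ∘ σ)) with h1 | h1
    · exact hi h1
    · apply hnot
      intro H _ hH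
      have h2 := nil_of_zero hres n (fun H _ a b c p => h1 H a b
        (fun p => polar_law b (ev_law hu he H b c) i p) p) H hH
      rw [eq_bot_iff, ← h2]
      exact fun x hx => L_mono hn3 hx

/-- The trichotomy. -/
theorem trichotomy {W : Set (FreeGroup ℕ)} (hres : ResTFN (Rel W)) :
    (∀ (H : Type) [Group H], Sat W H → L H 4 = ⊥) ∨
    (∀ (H : Type) [Group H], Sat W H → derivedSeries H 2 = ⊥) ∨
    (∀ w ∈ Verbal W, ∃ k : ℕ, 0 < k ∧ w ^ k ∈ L (FreeGroup ℕ) 4) := by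
  by_contra hcon
  obtain ⟨hna, hcon⟩ := not_or.mp hcon
  obtain ⟨hnb, hnc⟩ := not_or.mp hcon
  apply hnc
  intro w hu0
  by_contra hcon2
  have hne : ∀ k : ℕ, 0 < k → w ^ k ∉ L (FreeGroup ℕ) 4 := fun k hk h => hcon2 ⟨k, hk, h⟩
  obtain ⟨u1, hu1, hL1, hne1⟩ := down hres (n := 0) (by norm_num) (by
    intro E
    rcases one E with h | h
    · exact Or.inl (fun H _ _ p => h H (ZA H) (BB H 0) p)
    · exact Or.inr (fun H _ hT _ hp => h H (ZA H) (BB H 0) (tf_ZA hT) hp)) hna hu0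
    (mem_L_zero w) hne
  obtain ⟨u2, hu2, hL2, hne2⟩ := down hres (n := 1) (by norm_num) (by
    intro E
    rcases two E with h | h
    · exact Or.inl (fun H _ hH p => h H (ZA H) (BB H 1) (lie2 hH) p)
    · exact Or.inr (fun H _ hT hH hp => h H (ZA H) (BB H 1) (tf_ZA hT) (lie2 hH) hp)) hna hu1
    hL1 hne1
  obtain ⟨u3, hu3, hL3, hne3⟩ := down hres (n := 2) (by norm_num) (by
    intro E
    rcases three E with h | h
    · exact Or.inl (fun H _ hH p => h H (ZA H) (BB H 2) (lie3 hH) p)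
    · exact Or.inr (fun H _ hT hH hp => h H (ZA H) (BB H 2) (tf_ZA hT) (lie3 hH) hp)) hna hu2
    hL2 hne2
  obtain ⟨e, he⟩ := repr_L 3 hL3
  by_cases hall : ∀ i : Fin (3 + 1) → ℕ, ∀ (H : Type) [Group H], L H (3 + 1) = ⊥ →
      ∀ p : Fin (3 + 1) → H, ∑ σ : Equiv.Perm (Fin (3 + 1)), e (i ∘ σ) • BB H 3 (p ∘ σ) = 0
  · obtain ⟨k, hk, hk2⟩ := deeper_mem hL3 he (fun H _ hH i p => hall i H hH p)
    exact hne3 k hk hk2
  · obtain ⟨i, hi⟩ := not_forall.mp hall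
    rcases four (fun σ => e (i ∘ σ)) with h1 | h1 | h1
    · exact hi (fun H _ hH p => h1 H (ZA H) (BB H 3) (lie4 hH) p)
    · apply hna
      exact fun H _ hH => nil_of_sym hres (fun H _ a b c => sw_of_sym b
        (h1 H (ZA H) (BB H 3) (tf_ZA a) (lie4 b)
          (fun p => polar_law b (ev_law hu3 he H b c) i p))) H hH
    · apply hnb
      exact fun H _ hH => met_of_met hres (fun H _ a b c =>
        h1 H (ZA H) (BB H 3) (tf_ZA a) (lie4 b)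
          (fun p => polar_law b (ev_law hu3 he H b c) i p)) H hH

/-- laws with a power in the fifth term hold in torsion-free groups of class at most four -/
theorem sat_of_pow {W : Set (FreeGroup ℕ)}
    (h : ∀ w ∈ Verbal W, ∃ k : ℕ, 0 < k ∧ w ^ k ∈ L (FreeGroup ℕ) 4)
    (H : Type) [Group H] (hTF : TF H) (h4 : L H 4 = ⊥) : Sat W H := by
  intro w hw θ
  obtain ⟨k, hk, hk2⟩ := h w (Subgroup.subset_normalClosure ⟨w, hw, MonoidHom.id _, rfl⟩)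
  have h1 := map_lcs_mem θ 4 hk2
  rw [show (⊤ : Subgroup H).lowerCentralSeries 4 = ⊥ from h4, mem_bot, map_pow] at h1
  exact hTF _ k hk h1

/-- nilpotent or metabelian varieties are soluble -/
theorem solvable_of {W : Set (FreeGroup ℕ)}
    (h : (∀ (H : Type) [Group H], Sat W H → L H 4 = ⊥) ∨
      (∀ (H : Type) [Group H], Sat W H → derivedSeries H 2 = ⊥)) : Group.IsSolvable (Rel W) := by
  rcases h with h | h
  · have : Group.IsNilpotent (Rel W) :=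
      Subgroup.nilpotent_iff_lowerCentralSeries.mpr ⟨4, h (Rel W) (sat_rel W)⟩
    infer_instance
  · exact ⟨⟨2, h (Rel W) (sat_rel W)⟩⟩

end Pool.Agent.RTQ14
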