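import Pool.Agent.RTQ14.Kill

set_option autoImplicit false

namespace Pool.Agent.RTQ14

open Subgroup
open scoped commutatorElement
open Pool.Agent.RTN14

/-- the left-normed words of weight `n + 1` -/
def left : ℕ → OC
  | 0 => OC.var
  | n + 1 => OC.comm (left n) OC.var

theorem weight_left (n : ℕ) : (left n).weight = n + 1 := by
  induction n with
  | zero => rfl
  | succ n ih => show (left n).weight + 1 = _; rw [ih]

/-- if all left-normed commutators of weight `n + 1` vanish modulo `N` then `γ_{n+1} ≤ N` -/
theorem upper {H : Type} [Group H] : ∀ (n : ℕ) (k : ℕ),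
    (∀ y : (left n).Leaf → H, (left n).eval y ∈ Subgroup.upperCentralSeries H k) →
    Subgroup.upperCentralSeries H (k + n) = ⊤ := by
  intro n
  induction n with
  | zero =>
    intro k h
    rw [eq_top_iff]
    intro x _
    exact h (fun _ => x)
  | succ n ih =>
    intro k h
    have := ih (k + 1) (by
      intro y
      rw [Subgroup.mem_upperCentralSeries_succ_iff]
      intro g
      exact h (Sum.elim y (fun _ => g)))
    rwa [add_assoc, add_comm 1 n] at this

theorem lcs_of_left {H : Type} [Group H] (n : ℕ)
    (h : ∀ y : (left n).Leaf → H, (left n).eval y = 1) : L H n = ⊥ := by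
  have h1 := upper n 0 (fun y => by rw [h y]; exact one_mem _)
  rw [zero_add] at h1
  exact Subgroup.lowerCentralSeries_eq_bot_iff_upperCentralSeries_eq_top.mpr h1

theorem left_criterion {W : Set (FreeGroup ℕ)} (hres : ResTFN (Rel W)) (n : ℕ)
    (h : ∀ (H : Type) [Group H], TF H → L H (n + 1) = ⊥ → Sat W H →
      ∀ y : (left n).Leaf → H, (left n).eval y = 1) (H : Type) [Group H] (hH : Sat W H) :
    L H n = ⊥ := by
  apply lcs_of_left
  apply law_transfer _ _ H hH
  apply criterion hres
  intro H _ h1 h2 h3 y
  rw [weight_left] at h2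
  exact h H h1 h2 h3 y

end Pool.Agent.RTQ14
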