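import Pool.Agent.RTQ14.Br
import Pool.Agent.RTQ14.Five

set_option autoImplicit false

namespace Pool.Agent.RTQ14

open Subgroup
open scoped commutatorElement

instance centerComm (P : Type) [Group P] : CommGroup (center P) :=
  { (inferInstance : Group (center P)) with
    mul_comm := fun a b => Subtype.ext (mem_center_iff.mp b.2 a.1) }

/-- the centre, written additively -/
abbrev ZA (P : Type) [Group P] : Type := Additive (center P)

open Classical in
/-- an element of the centre as an element of the additive group -/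
noncomputable def val {P : Type} [Group P] (z : P) : ZA P :=
  if h : z ∈ center P then Additive.ofMul ⟨z, h⟩ else 0

theorem val_mul {P : Type} [Group P] {z z' : P} (h : z ∈ center P) (h' : z' ∈ center P) :
    val (z * z') = val z + val z' := by
  unfold val
  rw [dif_pos h, dif_pos h', dif_pos (mul_mem h h')]
  rfl

theorem val_one {P : Type} [Group P] : val (1 : P) = 0 := by
  unfold val
  rw [dif_pos (one_mem _)]
  rfl

theorem val_inv {P : Type} [Group P] {z : P} (h : z ∈ center P) : val z⁻¹ = - val z := by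
  have := val_mul h (inv_mem h)
  rw [mul_inv_cancel, val_one] at this
  exact (neg_eq_of_add_eq_zero_right this.symm).symm

theorem eq_one_of_val {P : Type} [Group P] {z : P} (h : z ∈ center P) (h0 : val z = 0) :
    z = 1 := by
  unfold val at h0
  rw [dif_pos h] at h0
  exact congrArg Subtype.val (Additive.ofMul.injective h0)

theorem val_zpow {P : Type} [Group P] {z : P} (h : z ∈ center P) (m : ℤ) :
    val (z ^ m) = m • val z := by
  unfold val
  rw [dif_pos h, dif_pos (zpow_mem h m)]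
  rfl

theorem tf_ZA {P : Type} [Group P] (hTF : RTN14.TF P) :
    ∀ a : ZA P, ∀ n : ℕ, 0 < n → n • a = 0 → a = 0 := by
  intro a n hn h
  obtain ⟨⟨z, hz⟩, rfl⟩ := Additive.ofMul.surjective a
  have h1 : z ^ n = 1 := congrArg (fun a : ZA P => ((Additive.toMul a : center P) : P)) h
  have h2 := hTF z n hn h1
  subst h2
  rfl

/-- the value of an iterated commutator of full weight -/
noncomputable def V {P : Type} [Group P] (u : P) (l : List P) : ZA P := val (bl u l)

theorem V_cons {P : Type} [Group P] (u x : P) (l : List P) : V u (x :: l) = V ⁅u, x⁆ l := rfl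

theorem bl_center {P : Type} [Group P] {n k : ℕ} (h : L P n = ⊥) {u : P} (hu : u ∈ L P k)
    (l : List P) (hl : n ≤ k + l.length + 1) : bl u l ∈ center P :=
  RTN14.lcs_le_center (n := k + l.length)
    (by rw [eq_bot_iff]; intro x hx; have := L_mono hl hx; rwa [h] at this) (bl_mem l hu)

theorem V_mul {P : Type} [Group P] {n k : ℕ} (h : L P n = ⊥) {u u' : P} (hu : u ∈ L P k)
    (hu' : u' ∈ L P k) (l : List P) (hl : n ≤ k + l.length + 1) :
    V (u * u') l = V u l + V u' l := by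
  unfold V
  rw [bl_mul h hu hu' l hl, val_mul (bl_center h hu l hl) (bl_center h hu' l hl)]

theorem V_skew {P : Type} [Group P] {n i j : ℕ} (h : L P n = ⊥) {x y : P} (hx : x ∈ L P i)
    (hy : y ∈ L P j) (l : List P) (hl : n ≤ i + j + l.length + 2) :
    V ⁅y, x⁆ l = - V ⁅x, y⁆ l := by
  unfold V
  have h1 : ⁅x, y⁆ ∈ L P (i + j + 1) := by
    have := comm_mem_L i j hy hx
    rwa [add_comm j i] at this
  rw [bl_skew h hx hy l hl, val_inv (bl_center h h1 l (by omega))]

theorem V_inv_left {P : Type} [Group P] {n i j : ℕ} (h : L P n = ⊥) {w y : P} (hw : w ∈ L P i)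
    (hy : y ∈ L P j) (l : List P) (hl : n ≤ i + j + l.length + 2) :
    V ⁅w⁻¹, y⁆ l = - V ⁅w, y⁆ l := by
  have h1 : ⁅w, y⁆ ∈ L P (i + j + 1) := by
    have := comm_mem_L i j hy hw
    rwa [add_comm j i] at this
  have e : ⁅w⁻¹, y⁆ = ⁅w, y⁆⁻¹ * ⁅⁅w, y⁆, w⁻¹⁆ := by
    simp only [commutatorElement_def]; group
  unfold V
  rw [e, bl_congr h (inv_mem h1) (comm_succ h1 _) l (by omega), bl_inv h h1 l (by omega),
    val_inv (bl_center h h1 l (by omega))]

theorem V_lie {P : Type} [Group P] {n i j k : ℕ} (h : L P n = ⊥) {x y z : P} (hx : x ∈ L P i)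
    (hy : y ∈ L P j) (hz : z ∈ L P k) (l : List P) (hl : n ≤ i + j + k + l.length + 3) :
    V ⁅x, ⁅y, z⁆⁆ l = V ⁅⁅x, y⁆, z⁆ l - V ⁅⁅x, z⁆, y⁆ l := by
  have m1 : ∀ {i j k : ℕ} {x y z : P}, x ∈ L P i → y ∈ L P j → z ∈ L P k →
      ⁅⁅x, y⁆, z⁆ ∈ L P (i + j + k + 2) := by
    intro i j k x y z hx hy hz
    exact L_mono (by omega) (comm_mem_L _ k hz (comm_mem_L i j hy hx))
  have hyz : ⁅y, z⁆ ∈ L P (j + k + 1) := by
    have := comm_mem_L j k hz hy
    rwa [add_comm k j] at this
  have hxz : ⁅x, z⁆ ∈ L P (i + k + 1) := by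
    have := comm_mem_L i k hz hx
    rwa [add_comm k i] at this
  have e1 : V ⁅x, ⁅y, z⁆⁆ l = - V ⁅⁅y, z⁆, x⁆ l := V_skew h hyz hx l (by omega)
  have e3 : V ⁅⁅z, x⁆, y⁆ l = - V ⁅⁅x, z⁆, y⁆ l := by
    rw [← commutatorElement_inv x z]
    exact V_inv_left h hxz hy l (by omega)
  have e0 := jacobi h hx hy hz l hl
  have b1 := bl_center h (m1 hx hy hz) l (by omega)
  have b2 := bl_center h (m1 hy hz hx) l (by omega)
  have b3 := bl_center h (m1 hz hx hy) l (by omega)
  have e4 : V ⁅⁅x, y⁆, z⁆ l + V ⁅⁅y, z⁆, x⁆ l + V ⁅⁅z, x⁆, y⁆ l = 0 := by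
    unfold V
    rw [← val_mul b1 b2, ← val_mul (mul_mem b1 b2) b3, e0, val_one]
  rw [e1]
  rw [e3] at e4
  have : V ⁅⁅y, z⁆, x⁆ l = V ⁅⁅x, z⁆, y⁆ l - V ⁅⁅x, y⁆, z⁆ l := by
    linear_combination (norm := module) (1 : ℤ) • e4
  rw [this]; abel

end Pool.Agent.RTQ14
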